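import Pool.Agent.W146.VC.Stm

/-! # Homogeneous sets of the stepped up colouring -/

set_option autoImplicit false

namespace Pool.Agent.W613.VC

open Finset Pool.Agent.W146.VC
open Pool.Agent.H526R2.Delta (hd isDelta_hd hd_lt)

/-- the differences of a window -/
theorem dl_window (x : ℕ → ℕ) (m : ℕ) : ∀ i, dl ((List.range' i (m + 1)).map x) =
    (List.range' i m).map (fun t => hd (x t) (x (t + 1))) := by
  induction m with
  | zero => intro i; simp [dl]
  | succ m ih =>
    intro i
    have h := ih (i + 1)
    simp only [List.range'_succ, List.map_cons, dl] at h ⊢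
    rw [h]

/-- the differences after an increasing block -/
theorem dl_inc (x : ℕ → ℕ) (δ : ℕ → ℕ) (p q : ℕ)
    (h : ∀ i j, p ≤ i → i ≤ j → j < q → hd (x i) (x (j + 1)) = δ j) :
    ∀ (J : List ℕ) (i : ℕ), p ≤ i → (∀ j ∈ J, i ≤ j ∧ j < q) → J.Pairwise (· < ·) →
      dl (x i :: J.map (fun j => x (j + 1))) = J.map δ := by
  intro J
  induction J with
  | nil => intro i _ _ _; simp [dl]
  | cons j J ih =>
    intro i hi hJ hp
    rw [List.pairwise_cons] at hp
    have h1 := hJ j (by simp)
    rw [List.map_cons, List.map_cons, dl, h i j hi h1.1 h1.2]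
    congr 1
    exact ih (j + 1) (by omega) (fun j' hj' => ⟨hp.1 j' hj', (hJ j' (by simp [hj'])).2⟩) hp.2

/-- the differences before the end of a decreasing block -/
theorem dl_dec (x : ℕ → ℕ) (δ : ℕ → ℕ) (p q : ℕ)
    (h : ∀ i j, p ≤ i → i < j → j ≤ q → hd (x i) (x j) = δ i) :
    ∀ (J : List ℕ), (∀ j ∈ J, p ≤ j ∧ j < q) → J.Pairwise (· < ·) →
      dl (J.map x ++ [x q]) = J.map δ := by
  intro J
  induction J with
  | nil => intro _ _; simp [dl]
  | cons j J ih =>
    intro hJ hp
    rw [List.pairwise_cons] at hp
    have h1 := hJ j (by simp)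
    have h2 := ih (fun j' hj' => hJ j' (by simp [hj'])) hp.2
    cases J with
    | nil =>
      simp only [List.map_cons, List.map_nil, List.nil_append, List.cons_append, dl]
      rw [h j q h1.1 h1.2 le_rfl]
    | cons j' J =>
      have h3 := hp.1 j' (by simp)
      have h4 := hJ j' (by simp)
      simp only [List.map_cons, List.cons_append, dl] at h2 ⊢
      rw [h2, h j j' h1.1 h3 h4.2.le]

theorem t_HOM : S_HOM := by
  classical
  intro r N n χ hr hχ S hS hcard hhom
  obtain ⟨b, hb⟩ := hhom
  set k := 2 * n + r with hk
  -- lists
  have H : ∀ L : List ℕ, L.Pairwise (· < ·) → (∀ a ∈ L, a ∈ S) → L.length = r + 1 →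
      dcol χ (dl L) = b := by
    intro L hL hLS hlen
    have hnd : L.Nodup := hL.imp (fun h => ne_of_lt h)
    have h1 := hb L.toFinset (fun a ha => hLS a (List.mem_toFinset.mp ha))
      (by rw [List.toFinset_card_of_nodup hnd, hlen])
    have h2 : L.toFinset.sort (· ≤ ·) = L := by
      rw [List.toFinset_sort (r := (· ≤ ·)) hnd]
      exact hL.imp (fun h => le_of_lt h)
    unfold up at h1
    rw [h2] at h1
    exact h1
  -- the points
  let x : ℕ → ℕ := fun i => if h : i < k then S.orderEmbOfFin hcard ⟨i, h⟩ else 0
  have hxS : ∀ i < k, x i ∈ S := by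
    intro i hi
    simp only [x]
    rw [dif_pos hi]
    exact orderEmbOfFin_mem S hcard _
  have hxlt : ∀ i j, i < j → j < k → x i < x j := by
    intro i j hij hj
    simp only [x]
    rw [dif_pos (hij.trans hj), dif_pos hj]
    exact (S.orderEmbOfFin hcard).strictMono hij
  let δ : ℕ → ℕ := fun i => hd (x i) (x (i + 1))
  have hδN : ∀ i, i + 1 < k → δ i < N := fun i hi =>
    hd_lt (hxlt i (i + 1) (by omega) hi) (mem_range.mp (hS (hxS (i + 1) hi)))
  have hδ : ∀ i j l, i < j → j < l → l < k → hd (x i) (x j) ≠ hd (x j) (x l) ∧
      hd (x i) (x l) = max (hd (x i) (x j)) (hd (x j) (x l)) := by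
    intro i j l hij hjl hl
    exact isDelta_hd Set.univ (x i) trivial (x j) trivial (x l) trivial
      (hxlt i j hij (hjl.trans hl)) (hxlt j l hjl hl)
  -- general
  have fin_of_block : ∀ p, p + n < k → (∀ i j, p ≤ i → j < p + n → i < j → δ i ≠ δ j) →
      (∀ J : List ℕ, J.Pairwise (· < ·) → (∀ j ∈ J, p ≤ j ∧ j < p + n) → J.length = r →
        χ (J.map δ).toFinset = b) → False := by
    intro p hp hne hJ
    have hinj : Set.InjOn δ (Finset.Ico p (p + n) : Finset ℕ) := by
      intro i hi j hj hij
      rw [Finset.mem_coe, Finset.mem_Ico] at hi hj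
      by_contra hc
      rcases lt_or_gt_of_ne hc with h | h
      · exact hne i j hi.1 hj.2 h hij
      · exact hne j i hj.1 hi.2 h hij.symm
    refine hχ ((Finset.Ico p (p + n)).image δ) ?_ ?_ ⟨b, ?_⟩
    · intro a ha
      rw [Finset.mem_image] at ha
      obtain ⟨i, hi, rfl⟩ := ha
      rw [Finset.mem_Ico] at hi
      exact mem_range.mpr (hδN i (by omega))
    · rw [Finset.card_image_of_injOn hinj, Nat.card_Ico]
      omega
    · intro f hf hfc
      let I : Finset ℕ := (Finset.Ico p (p + n)).filter (fun i => δ i ∈ f)
      have hI : I.image δ = f := by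
        ext a
        rw [Finset.mem_image]
        constructor
        · rintro ⟨i, hi, rfl⟩
          exact (Finset.mem_filter.mp hi).2
        · intro ha
          obtain ⟨i, hi, rfl⟩ := Finset.mem_image.mp (hf ha)
          exact ⟨i, Finset.mem_filter.mpr ⟨hi, ha⟩, rfl⟩
      have hIc : I.card = r := by
        rw [← hfc, ← hI, Finset.card_image_of_injOn]
        exact hinj.mono (fun i hi => (Finset.mem_filter.mp hi).1)
      have h1 := hJ (I.sort (· ≤ ·)) (Finset.sortedLT_sort I).pairwise (fun j hj => by
          have := (Finset.mem_filter.mp ((Finset.mem_sort _).mp hj)).1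
          rwa [Finset.mem_Ico] at this) (by rw [Finset.length_sort, hIc])
      have h2 : ((I.sort (· ≤ ·)).map δ).toFinset = f := by
        rw [← hI]
        ext a
        simp only [List.mem_toFinset, List.mem_map, Finset.mem_sort, Finset.mem_image]
      rwa [h2] at h1
  -- increasing blocks
  have inc : ∀ p, p + n < k → (∀ i, p ≤ i → i + 1 < p + n → δ i < δ (i + 1)) → False := by
    intro p hp hlt
    have hmono : ∀ i j, p ≤ i → i < j → j < p + n → δ i < δ j := by
      intro i j hi hij
      induction j, hij using Nat.le_induction with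
      | base => intro hj; exact hlt i hi hj
      | succ j hij ih =>
        intro hj
        exact (ih (by omega)).trans (hlt j (by omega) hj)
    have hhd : ∀ i j, p ≤ i → i ≤ j → j < p + n → hd (x i) (x (j + 1)) = δ j := by
      intro i j hi hij
      induction j, hij using Nat.le_induction with
      | base => intro _; rfl
      | succ j hij ih =>
        intro hj
        have h1 := (hδ i (j + 1) (j + 2) (by omega) (by omega) (by omega)).2
        rw [ih (by omega)] at h1
        rw [h1]
        exact max_eq_right (hmono j (j + 1) (by omega) (by omega) hj).le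
    refine fin_of_block p hp (fun i j hi hj hij => (hmono i j hi hij hj).ne) ?_
    intro J hJ hJm hJr
    have hne : J ≠ [] := by
      rintro rfl
      simp at hJr
      omega
    have h1 := H (x p :: J.map (fun j => x (j + 1))) ?_ ?_ ?_
    · rw [dl_inc x δ p (p + n) hhd J p le_rfl (fun j hj => hJm j hj) hJ] at h1
      unfold dcol at h1
      rw [if_pos] at h1
      · exact h1
      · left
        rw [List.pairwise_map]
        exact List.Pairwise.imp_of_mem (fun {a c} ha hc hac =>
          hmono a c (hJm a ha).1 hac (hJm c hc).2) hJ
    · rw [List.pairwise_cons]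
      refine ⟨?_, ?_⟩
      · intro a ha
        obtain ⟨j, hj, rfl⟩ := List.mem_map.mp ha
        have := hJm j hj
        exact hxlt _ _ (by omega) (by omega)
      · rw [List.pairwise_map]
        exact List.Pairwise.imp_of_mem (fun {a c} ha hc hac =>
          hxlt _ _ (by omega) (by have := hJm c hc; omega)) hJ
    · intro a ha
      rw [List.mem_cons] at ha
      rcases ha with rfl | ha
      · exact hxS p (by omega)
      · obtain ⟨j, hj, rfl⟩ := List.mem_map.mp ha
        have := hJm j hj
        exact hxS _ (by omega)
    · rw [List.length_cons, List.length_map, hJr]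
  -- decreasing blocks
  have dec : ∀ p, p + n < k → (∀ i, p ≤ i → i + 1 < p + n → δ (i + 1) < δ i) → False := by
    intro p hp hlt
    have hmono : ∀ i j, p ≤ i → i < j → j < p + n → δ j < δ i := by
      intro i j hi hij
      induction j, hij using Nat.le_induction with
      | base => intro hj; exact hlt i hi hj
      | succ j hij ih =>
        intro hj
        exact (hlt j (by omega) hj).trans (ih (by omega))
    have hhd : ∀ i j, p ≤ i → i < j → j ≤ p + n → hd (x i) (x j) = δ i := by
      intro i j hi hij
      induction j, hij using Nat.le_induction with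
      | base => intro _; rfl
      | succ j hij ih =>
        intro hj
        have h1 := (hδ i j (j + 1) (by omega) (by omega) (by omega)).2
        rw [ih (by omega)] at h1
        rw [h1]
        exact max_eq_left (hmono i j hi (by omega) (by omega)).le
    refine fin_of_block p hp (fun i j hi hj hij => (hmono i j hi hij hj).ne') ?_
    intro J hJ hJm hJr
    have h1 := H (J.map x ++ [x (p + n)]) ?_ ?_ ?_
    · rw [dl_dec x δ p (p + n) hhd J hJm hJ] at h1
      unfold dcol at h1
      rw [if_pos] at h1
      · exact h1
      · right
        rw [List.pairwise_map]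
        exact List.Pairwise.imp_of_mem (fun {a c} ha hc hac =>
          hmono a c (hJm a ha).1 hac (hJm c hc).2) hJ
    · rw [List.pairwise_append]
      refine ⟨?_, List.pairwise_singleton _ _, ?_⟩
      · rw [List.pairwise_map]
        exact List.Pairwise.imp_of_mem (fun {a c} ha hc hac =>
          hxlt _ _ hac (by have := hJm c hc; omega)) hJ
      · intro a ha c hc
        obtain ⟨j, hj, rfl⟩ := List.mem_map.mp ha
        rw [List.mem_singleton] at hc
        subst hc
        exact hxlt _ _ (hJm j hj).2 hp
    · intro a ha
      rw [List.mem_append] at ha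
      rcases ha with ha | ha
      · obtain ⟨j, hj, rfl⟩ := List.mem_map.mp ha
        have := hJm j hj
        exact hxS _ (by omega)
      · rw [List.mem_singleton] at ha
        subst ha
        exact hxS _ hp
    · rw [List.length_append, List.length_map, hJr, List.length_singleton]
  -- windows
  obtain ⟨r', rfl⟩ : ∃ r', r = r' + 3 := ⟨r - 3, by omega⟩
  have win : ∀ i, i + (r' + 3) < k →
      dcol χ (δ i :: δ (i + 1) :: δ (i + 2) :: (List.range' (i + 3) r').map δ) = b := by
    intro i hi
    have h1 := H ((List.range' i (r' + 3 + 1)).map x) ?_ ?_ ?_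
    · rw [dl_window x (r' + 3) i] at h1
      simp only [List.range'_succ, List.map_cons] at h1
      exact h1
    · rw [List.pairwise_map]
      refine List.Pairwise.imp_of_mem ?_ (List.pairwise_lt_range' (s := i) (n := r' + 3 + 1))
      intro a c ha hc hac
      rw [List.mem_range'_1] at hc
      exact hxlt _ _ hac (by omega)
    · intro a ha
      obtain ⟨j, hj, rfl⟩ := List.mem_map.mp ha
      rw [List.mem_range'_1] at hj
      exact hxS _ (by omega)
    · rw [List.length_map, List.length_range']
  have hne : ∀ i, i + 2 < k → δ i ≠ δ (i + 1) := fun i hi =>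
    (hδ i (i + 1) (i + 2) (by omega) (by omega) hi).1
  cases b with
  | true =>
    have step : ∀ i, i + (r' + 3) < k → δ (i + 1) < δ i → δ (i + 2) < δ (i + 1) := by
      intro i hi h
      have h1 := win i hi
      unfold dcol at h1
      split_ifs at h1 with hc
      · rcases hc with hc | hc
        · rw [List.pairwise_cons] at hc
          exact absurd (hc.1 (δ (i + 1)) (by simp)) (by omega)
        · rw [List.pairwise_cons, List.pairwise_cons] at hc
          exact hc.2.1 (δ (i + 2)) (by simp)
      · simp only [decide_eq_true_eq] at h1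
        omega
    by_cases hA : ∀ j, j + 1 < n → δ j < δ (j + 1)
    · exact inc 0 (by omega) (fun i _ hi => hA i (by omega))
    · push Not at hA
      obtain ⟨j, hj, hjd⟩ := hA
      have hjd' : δ (j + 1) < δ j := lt_of_le_of_ne hjd (hne j (by omega)).symm
      refine dec j (by omega) ?_
      intro i hi
      induction i, hi using Nat.le_induction with
      | base => intro _; exact hjd'
      | succ i hi ih =>
        intro hi2
        exact step i (by omega) (ih (by omega))
  | false =>
    have step : ∀ i, i + (r' + 3) < k → δ i < δ (i + 1) → δ (i + 1) < δ (i + 2) := by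
      intro i hi h
      have h1 := win i hi
      unfold dcol at h1
      split_ifs at h1 with hc
      · rcases hc with hc | hc
        · rw [List.pairwise_cons, List.pairwise_cons] at hc
          exact hc.2.1 (δ (i + 2)) (by simp)
        · rw [List.pairwise_cons] at hc
          exact absurd (hc.1 (δ (i + 1)) (by simp)) (by omega)
      · simp only [decide_eq_false_iff_not] at h1
        omega
    by_cases hA : ∀ j, j + 1 < n → δ (j + 1) < δ j
    · exact dec 0 (by omega) (fun i _ hi => hA i (by omega))
    · push Not at hA
      obtain ⟨j, hj, hjd⟩ := hA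
      have hjd' : δ j < δ (j + 1) := lt_of_le_of_ne hjd (hne j (by omega))
      refine inc j (by omega) ?_
      intro i hi
      induction i, hi using Nat.le_induction with
      | base => intro _; exact hjd'
      | succ i hi ih =>
        intro hi2
        exact step i (by omega) (ih (by omega))

end Pool.Agent.W613.VC
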