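import Mathlib
import Pool.Agent.H852.QP.Both
import Pool.Agent.W610.Plane

set_option autoImplicit false

/-!
# Generic points of the plane in every characteristic: exponentially thin window
-/

namespace Pool.Agent.W613

open MvPolynomial Pool.Agent.H932R5 Pool.Agent.H519R3.AC Pool.Agent.W610

universe u

/-- **Independence at generic points**, the ratio hypothesis only for the given dimension. -/
theorem surjAt_fix {k : Type u} [Field k] [IsAlgClosed k] {E n : ℕ} {w : Fin n → ℕ}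
    {P : Fin n → Fin (E + 1) → k}
    (hP : AlgebraicIndependent (⊥ : Subfield k) (fun q : Fin n × Fin (E + 1) => P q.1 q.2))
    {L ν : ℝ}
    (hrat : ∀ t : ℕ, t < E → ∃ σ, Up (L ^ (E - 1 - t)) σ ∧ σ ≤ L ^ (E + 1 - t) ∧
      ν ≤ Real.sqrt (σ / L ^ (E + 1 - t)))
    (hL : 1 ≤ L) (hν0 : 0 < ν) (hν : ν ≤ 1) (hn : L ^ (E + 1) = n) {d : ℕ}
    (hd : ∀ i, L * (w i + E) ≤ ν ^ E * d) : SurjAt w P d := by
  have h1 : IsAlgClosed (algebraicClosure (⊥ : Subfield k) k) :=
    (algebraicClosure.isAlgClosure (⊥ : Subfield k) k).1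
  have h2 : Infinite (algebraicClosure (⊥ : Subfield k) k) := IsAlgClosed.instInfinite
  obtain ⟨m, hm⟩ : ∃ m, m = Finset.univ.sup w := ⟨_, rfl⟩
  have hwm : ∀ i, w i ≤ m := fun i => by rw [hm]; exact Finset.le_sup (Finset.mem_univ i)
  rcases Nat.eq_zero_or_pos m with hm0 | hm0
  · refine SurjAt.of_zero (fun i => ?_) P d
    have := hwm i
    omega
  · have hn0 : 0 < n := by
      rcases Nat.eq_zero_or_pos n with h0 | h0
      · exfalso
        subst h0
        rw [hm, Finset.univ_eq_empty, Finset.sup_empty] at hm0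
        exact lt_irrefl _ hm0
      · exact h0
    obtain ⟨i, _, hi⟩ := Finset.exists_mem_eq_sup Finset.univ ⟨⟨0, hn0⟩, Finset.mem_univ _⟩ w
    have h3 := hd i
    rw [← hi, ← hm] at h3
    have h4 := base_pts (K := algebraicClosure (⊥ : Subfield k) k) (E := E) (fun _ : Fin n => m)
    have h5 : FFull (ptsFam (algebraicClosure (⊥ : Subfield k) k) E (fun _ : Fin n => m))
        (M0 E n m) := by
      have e : (M0 E n m) = {p : Fin (E + 1) →₀ ℕ | p 0 + n * ∑ j : Fin E, p j.succ <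
          ∑ _i : Fin n, m} := by
        unfold M0
        rw [Finset.sum_const, Finset.card_univ, Fintype.card_fin, smul_eq_mul]
      rw [e]
      exact h4
    have h6 := rk_fix h5 hm0 hrat hL hν0 hν hn h3
    exact (Pool.Agent.H852.QP.surjAt_of_rk h6 hP.algebraicClosure).mono_w hwm

/-- The square root of the inverse ratio. -/
theorem sqrt_ratio' {u σ x : ℝ} (hu : 2 ≤ u) (h : u - σ ≤ x) (hx0 : 0 ≤ x)
    (hx1 : x ≤ 1) : 1 - x / u ≤ Real.sqrt (σ / u) := by
  have hu0 : 0 < u := by linarith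
  have h1 : 0 ≤ x / u := by positivity
  have h2 : x / u ≤ 1 := by
    rw [div_le_one hu0]
    linarith
  apply Real.le_sqrt_of_sq_le
  rw [le_div_iff₀ hu0]
  have h3 : (1 - x / u) ^ 2 * u ≤ (1 - x / u) * u := by
    refine mul_le_mul_of_nonneg_right ?_ hu0.le
    nlinarith
  have h4 : (1 - x / u) * u = u - x := by field_simp
  linarith

/-- Independence of the conditions at generic points of the plane, all multiplicities, every
characteristic. -/
theorem surjE {k : Type u} [Field k] [IsAlgClosed k] {r : ℕ} (hr : (2 : ℝ) ^ 1000 ≤ r)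
    {P : Fin r → Fin 2 → k}
    (hP : AlgebraicIndependent (⊥ : Subfield k) (fun ij : Fin r × Fin 2 => P ij.1 ij.2))
    {w : Fin r → ℕ} {d : ℕ}
    (hd : ∀ i, Real.sqrt r * (w i + 1) ≤ (1 - Real.exp (-((r : ℝ) ^ (1 / 10 : ℝ))) / r) * d) :
    SurjAt (E := 1) w P d := by
  have hr2 := two_le_of_big hr
  have hr1 : (1 : ℝ) ≤ r := le_trans (one_le_pow₀ (by norm_num)) hr
  obtain ⟨σ, hσ, hσ1, hσ2⟩ := exists_up_exp (s0 := 1) le_rfl hr (by
    rw [one_pow]
    exact one_le_pow₀ hr1)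
  clear hr
  have hrR : (0 : ℝ) < r := by linarith
  have hss : Real.sqrt r ^ 2 = r := Real.sq_sqrt hrR.le
  have hL1 : 1 ≤ Real.sqrt r := by
    rw [Real.one_le_sqrt]
    exact hr1
  obtain ⟨x, hx⟩ : ∃ x, x = Real.exp (-((r : ℝ) ^ (1 / 10 : ℝ))) := ⟨_, rfl⟩
  rw [← hx] at hσ2 hd
  have hx0 : 0 < x := by rw [hx]; exact Real.exp_pos _
  have hx1 : x ≤ 1 := by
    rw [hx, Real.exp_le_one_iff]
    have : 0 ≤ (r : ℝ) ^ (1 / 10 : ℝ) := Real.rpow_nonneg hrR.le _
    linarith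
  have hxr : x / r < 1 := by
    rw [div_lt_one hrR]
    linarith
  refine surjAt_fix (E := 1) (w := w) hP (L := Real.sqrt r) (ν := 1 - x / r)
    (fun t ht => ?_) hL1 (by linarith) ?_ ?_ (fun i => ?_)
  · have ht0 : t = 0 := by omega
    subst ht0
    refine ⟨σ, ?_, ?_, ?_⟩
    · show Up (Real.sqrt r ^ 0) σ
      rw [pow_zero]
      exact hσ
    · show σ ≤ Real.sqrt r ^ 2
      rw [hss]
      exact hσ1
    · show 1 - x / r ≤ Real.sqrt (σ / Real.sqrt r ^ 2)
      rw [hss]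
      exact sqrt_ratio' (by linarith) hσ2 hx0.le hx1
  · have : 0 < x / r := by positivity
    linarith
  · exact hss
  · rw [pow_one]
    have h5 := hd i
    push_cast
    exact h5

/-- The integrality argument for arbitrary multiplicities. -/
theorem sum_exactE {r M d x : ℝ} (hr : 1 ≤ r) (_hd0 : 0 ≤ d) (hx0 : 0 < x) (hx1 : x ≤ 1)
    (hM : 3 * x * M ^ 2 < r) (hint : r * d ^ 2 + 1 ≤ M ^ 2) (hM0 : 0 ≤ M) :
    (1 + x / r) * (Real.sqrt r * d) < M := by
  have hr0 : 0 < r := by linarith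
  obtain ⟨y, hy⟩ : ∃ y, y = x / r := ⟨_, rfl⟩
  have hy0 : 0 < y := by rw [hy]; positivity
  have hyr : y * r = x := by rw [hy]; field_simp
  have hy1 : y ≤ 1 := by
    rw [hy, div_le_one hr0]
    linarith
  rw [← hy]
  refine lt_of_pow_lt_pow_left₀ 2 hM0 ?_
  rw [mul_pow, mul_pow, Real.sq_sqrt hr0.le]
  obtain ⟨z, hz⟩ : ∃ z, z = r * d ^ 2 := ⟨_, rfl⟩
  rw [← hz] at hint ⊢
  have hz0 : 0 ≤ z := by rw [hz]; positivity
  have h1 : 3 * y * M ^ 2 < 1 := by
    have h2 : 3 * y * M ^ 2 * r < 1 * r := by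
      calc 3 * y * M ^ 2 * r = 3 * (y * r) * M ^ 2 := by ring
        _ = 3 * x * M ^ 2 := by rw [hyr]
        _ < 1 * r := by linarith
    exact lt_of_mul_lt_mul_right h2 hr0.le
  have h3 : 3 * y * z ≤ 3 * y * M ^ 2 := mul_le_mul_of_nonneg_left (by linarith) (by positivity)
  have h4 : y * y * z ≤ y * 1 * z := by gcongr
  nlinarith

/-- No nonzero form, for classes below the critical slope. -/
theorem empty_winE {k : Type u} [Field k] [IsAlgClosed k] {r : ℕ} (hr : (2 : ℝ) ^ 1000 ≤ r)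
    {P : Fin r → Fin 2 → k}
    (hP : AlgebraicIndependent (⊥ : Subfield k) (fun ij : Fin r × Fin 2 => P ij.1 ij.2))
    {w : Fin r → ℕ} {d : ℕ} (h0 : 0 < ∑ i, w i)
    (hd : Real.sqrt r * d ≤ (1 - Real.exp (-((r : ℝ) ^ (1 / 10 : ℝ))) / r) * ∑ i, (w i : ℝ) ∨
      (Real.sqrt r * d < ∑ i, (w i : ℝ) ∧
        ∑ i, (w i : ℝ) ≤ Real.sqrt r * Real.exp ((r : ℝ) ^ (1 / 10 : ℝ) / 2) / 2)) :
    EmptyAt (E := 1) w P d := by
  refine emptyE hr hP ?_
  have hr1 : (1 : ℝ) ≤ r := le_trans (one_le_pow₀ (by norm_num)) hr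
  clear hr
  have hrR : (0 : ℝ) < r := by linarith
  have hs0 : 0 < Real.sqrt r := Real.sqrt_pos.2 hrR
  obtain ⟨M, hM⟩ : ∃ M, M = ∑ i, w i := ⟨_, rfl⟩
  have hMR : (M : ℝ) = ∑ i, (w i : ℝ) := by rw [hM]; push_cast; rfl
  rw [← hMR] at hd
  rw [← hM] at h0 ⊢
  have hMpos : (0 : ℝ) < M := by exact_mod_cast h0
  obtain ⟨X, hX⟩ : ∃ X : ℝ, X = (r : ℝ) ^ (1 / 10 : ℝ) := ⟨_, rfl⟩
  rw [← hX] at hd ⊢
  have hX0 : 0 ≤ X := by rw [hX]; exact Real.rpow_nonneg hrR.le _
  obtain ⟨x, hx⟩ : ∃ x, x = Real.exp (-X) := ⟨_, rfl⟩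
  have hx0 : 0 < x := by rw [hx]; exact Real.exp_pos _
  have hx1 : x ≤ 1 := by
    rw [hx, Real.exp_le_one_iff]
    linarith
  rcases hd with hd | hd
  · rw [← hx] at hd ⊢
    have hy0 : 0 < x / r := by positivity
    have h3 : (1 + x / r) * (Real.sqrt r * d) ≤ (1 + x / r) * ((1 - x / r) * M) :=
      mul_le_mul_of_nonneg_left hd (by linarith)
    have h4 : (1 + x / r) * ((1 - x / r) * (M : ℝ)) = M - x / r * (x / r) * M := by ring
    have h5 : 0 < x / r * (x / r) * (M : ℝ) := by positivity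
    linarith
  · obtain ⟨hd1, hd2⟩ := hd
    rw [← hx]
    have hd0 : (0 : ℝ) ≤ d := Nat.cast_nonneg d
    refine sum_exactE hr1 hd0 hx0 hx1 ?_ ?_ hMpos.le
    · have h1 : (M : ℝ) ^ 2 ≤ (Real.sqrt r * Real.exp (X / 2) / 2) ^ 2 :=
        pow_le_pow_left₀ hMpos.le hd2 2
      have h2 : (Real.sqrt r * Real.exp (X / 2) / 2) ^ 2 = r * Real.exp X / 4 := by
        rw [div_pow, mul_pow, Real.sq_sqrt hrR.le, ← Real.exp_nat_mul]
        have e : ((2 : ℕ) : ℝ) * (X / 2) = X := by push_cast; ring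
        rw [e]
        norm_num
      rw [h2] at h1
      have h3 : x * Real.exp X = 1 := by
        rw [hx, ← Real.exp_add]
        simp
      have h4 : 3 * x * (M : ℝ) ^ 2 ≤ 3 * x * (r * Real.exp X / 4) :=
        mul_le_mul_of_nonneg_left h1 (by positivity)
      have h5 : 3 * x * (r * Real.exp X / 4) = 3 / 4 * r * (x * Real.exp X) := by ring
      rw [h5, h3] at h4
      linarith
    · have h1 := mul_self_lt_mul_self (by positivity) hd1
      have h2 : Real.sqrt r * d * (Real.sqrt r * d) = r * (d : ℝ) ^ 2 := by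
        calc Real.sqrt r * d * (Real.sqrt r * d) =
            (Real.sqrt r * Real.sqrt r) * (d : ℝ) ^ 2 := by ring
          _ = _ := by rw [Real.mul_self_sqrt hrR.le]
      rw [h2] at h1
      have h3 : r * d ^ 2 < M * M := by exact_mod_cast h1
      have h4 : r * d ^ 2 + 1 ≤ M ^ 2 := by rw [pow_two M]; exact h3
      exact_mod_cast h4

end Pool.Agent.W613
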