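import Pool.Agent.W114.PQ.Stm
import Pool.Agent.H951R4.OD.F1
import Pool.Agent.H951R4.OD.M
import Pool.Agent.H951R4.OD.B6
import Pool.Agent.H951R4.OD.A1

set_option autoImplicit false

/-! # PQ-DP: projective plane data -/

namespace Pool.Agent.W613.PQDp

open Finset Filter Topology Pool.Agent.W114.PQ
open Pool.Agent.H951R4.OD (ch PI Ex)

/-- the value -/
theorem fl_one (n : ℕ) : Pool.Agent.H951R4.OD.fl 1 n = ((n ^ 2 + n + 1 : ℕ) : ℤ) := by
  unfold Pool.Agent.H951R4.OD.fl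
  push_cast
  ring

theorem cl_one : Pool.Agent.H951R4.OD.cl 1 = 6 := by
  unfold Pool.Agent.H951R4.OD.cl
  norm_num

/-- roots modulo `q` -/
theorem card_q (q : ℕ) (hq : q.Prime) (h6 : ¬ q ∣ 6) :
    (((range q).filter (fun n : ℕ => q ∣ n ^ 2 + n + 1)).card : ℝ) = 1 + ch (-3) q := by
  have h := (Pool.Agent.H951R4.OD.pol_fl 1 le_rfl).cnt q hq (by rw [cl_one]; exact h6)
  have e : (range q).filter (fun n : ℕ => (q : ℤ) ∣ Pool.Agent.H951R4.OD.fl 1 n) =
      (range q).filter (fun n : ℕ => q ∣ n ^ 2 + n + 1) := by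
    apply Finset.filter_congr
    intro n _
    rw [fl_one, Int.natCast_dvd_natCast]
  rw [e] at h
  rw [h, one_mul]
  norm_num

/-- periodicity -/
theorem dvd_add_mul (m n k : ℕ) : m ∣ (n + m * k) ^ 2 + (n + m * k) + 1 ↔ m ∣ n ^ 2 + n + 1 := by
  have e : (n + m * k) ^ 2 + (n + m * k) + 1 = (n ^ 2 + n + 1) + m * (k * (2 * n + m * k + 1)) := by
    ring
  rw [e]
  exact (Nat.dvd_add_left (dvd_mul_right _ _))

/-- roots modulo `q` in `range (q ^ 2)` -/
theorem card_q2 (q : ℕ) (hq : 0 < q) :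
    ((range (q ^ 2)).filter (fun n : ℕ => q ∣ n ^ 2 + n + 1)).card =
      q * ((range q).filter (fun n : ℕ => q ∣ n ^ 2 + n + 1)).card := by
  have key : ∀ j : ℕ, ((range (q * j)).filter (fun n : ℕ => q ∣ n ^ 2 + n + 1)).card =
      j * ((range q).filter (fun n : ℕ => q ∣ n ^ 2 + n + 1)).card := by
    intro j
    induction j with
    | zero => simp
    | succ j ih =>
      have e : (range (q * (j + 1))).filter (fun n : ℕ => q ∣ n ^ 2 + n + 1) =
          (range (q * j)).filter (fun n : ℕ => q ∣ n ^ 2 + n + 1) ∪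
          ((range q).filter (fun n : ℕ => q ∣ n ^ 2 + n + 1)).map (addLeftEmbedding (q * j)) := by
        ext n
        simp only [mem_filter, mem_range, mem_union, Finset.mem_map, addLeftEmbedding_apply]
        constructor
        · rintro ⟨h1, h2⟩
          rcases Nat.lt_or_ge n (q * j) with h3 | h3
          · exact Or.inl ⟨h3, h2⟩
          · right
            refine ⟨n - q * j, ⟨by rw [mul_add, mul_one] at h1; omega, ?_⟩, by omega⟩
            have h4 : n = (n - q * j) + q * j := by omega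
            rw [h4] at h2
            exact (dvd_add_mul q _ j).mp h2
        · rintro (⟨h1, h2⟩ | ⟨m, ⟨h1, h2⟩, rfl⟩)
          · exact ⟨by rw [mul_add, mul_one]; omega, h2⟩
          · refine ⟨by rw [mul_add, mul_one]; omega, ?_⟩
            rw [add_comm (q * j) m]
            exact (dvd_add_mul q m j).mpr h2
      rw [e, card_union_of_disjoint, card_map, ih]
      · ring
      · rw [Finset.disjoint_left]
        intro n h1 h2
        simp only [mem_filter, mem_range, Finset.mem_map, addLeftEmbedding_apply] at h1 h2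
        obtain ⟨m, -, rfl⟩ := h2
        omega
  have := key q
  rw [← sq] at this
  exact this

/-- at most two roots modulo `q ^ 2` -/
theorem card_sq (q : ℕ) (hq : q.Prime) (h6 : ¬ q ∣ 6) :
    ((range (q ^ 2)).filter (fun n : ℕ => q ^ 2 ∣ n ^ 2 + n + 1)).card ≤ 2 := by
  have hq3 : ¬ (q : ℤ) ∣ 3 := by
    intro h
    apply h6
    have h1 : q ∣ 3 := by exact_mod_cast h
    exact h1.trans (by norm_num)
  have hqp : Prime (q : ℤ) := Nat.prime_iff_prime_int.mp hq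
  -- two roots
  have key : ∀ x y : ℕ, q ^ 2 ∣ x ^ 2 + x + 1 → q ^ 2 ∣ y ^ 2 + y + 1 →
      ((q : ℤ) ^ 2 ∣ (x : ℤ) - y) ∨ ((q : ℤ) ^ 2 ∣ (x : ℤ) + y + 1) := by
    intro x y hx hy
    have hx' : (q : ℤ) ^ 2 ∣ (x : ℤ) ^ 2 + x + 1 := by exact_mod_cast hx
    have hy' : (q : ℤ) ^ 2 ∣ (y : ℤ) ^ 2 + y + 1 := by exact_mod_cast hy
    have hp : (q : ℤ) ^ 2 ∣ ((x : ℤ) - y) * ((x : ℤ) + y + 1) := by
      have e : ((x : ℤ) - y) * ((x : ℤ) + y + 1) = ((x : ℤ) ^ 2 + x + 1) - ((y : ℤ) ^ 2 + y + 1) := by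
        ring
      rw [e]
      exact dvd_sub hx' hy'
    by_cases h1 : (q : ℤ) ∣ (x : ℤ) - y
    · have h2 : ¬ (q : ℤ) ∣ (x : ℤ) + y + 1 := by
        intro h2
        apply hq3
        have h3 : (q : ℤ) ∣ 2 * x + 1 := by
          have := dvd_add h1 h2
          have e : (x : ℤ) - y + (x + y + 1) = 2 * x + 1 := by ring
          rwa [e] at this
        have h4 : (q : ℤ) ∣ (x : ℤ) ^ 2 + x + 1 := (dvd_pow_self _ two_ne_zero).trans hx'
        have e : (3 : ℤ) = 4 * ((x : ℤ) ^ 2 + x + 1) - (2 * x + 1) * (2 * x + 1) := by ring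
        rw [e]
        exact dvd_sub (h4.mul_left _) (h3.mul_left _)
      left
      have hcop : IsCoprime ((q : ℤ) ^ 2) ((x : ℤ) + y + 1) :=
        ((hqp.coprime_iff_not_dvd).mpr h2).pow_left
      exact hcop.dvd_of_dvd_mul_right hp
    · right
      have hcop : IsCoprime ((q : ℤ) ^ 2) ((x : ℤ) - y) :=
        ((hqp.coprime_iff_not_dvd).mpr h1).pow_left
      exact hcop.dvd_of_dvd_mul_left hp
  have hint : ∀ x y : ℕ, x < q ^ 2 → y < q ^ 2 → (q : ℤ) ^ 2 ∣ (x : ℤ) - y → x = y := by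
    intro x y hx hy h
    have h1 : |(x : ℤ) - y| < (q : ℤ) ^ 2 := by
      have hx' : (x : ℤ) < (q : ℤ) ^ 2 := by exact_mod_cast hx
      have hy' : (y : ℤ) < (q : ℤ) ^ 2 := by exact_mod_cast hy
      rw [abs_lt]
      constructor <;> omega
    have h2 := Int.eq_zero_of_abs_lt_dvd h h1
    omega
  by_contra hcon
  push Not at hcon
  obtain ⟨x, y, z, hx, hy, hz, hxy, hxz, hyz⟩ := Finset.two_lt_card_iff.mp hcon
  rw [mem_filter, mem_range] at hx hy hz
  have k1 := (key x y hx.2 hy.2).resolve_left fun h => hxy (hint x y hx.1 hy.1 h)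
  have k2 := (key x z hx.2 hz.2).resolve_left fun h => hxz (hint x z hx.1 hz.1 h)
  have k3 : (q : ℤ) ^ 2 ∣ (y : ℤ) - z := by
    have := dvd_sub k1 k2
    have e : (x : ℤ) + y + 1 - (x + z + 1) = y - z := by ring
    rwa [e] at this
  exact hyz (hint y z hy.1 hz.1 k3)

theorem cnt_aux (q : ℕ) (hq : q.Prime) (hqc : ¬ q ∣ 6)
    (inst : DecidablePred fun n : ℕ => q ∣ n ^ 2 + n + 1 ∧ ¬ q ^ 2 ∣ n ^ 2 + n + 1) :
    |(((range (q ^ 2)).filter (fun n : ℕ => q ∣ n ^ 2 + n + 1 ∧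
      ¬ q ^ 2 ∣ n ^ 2 + n + 1)).card : ℝ) - q * (1 + ch (-3) q)| ≤ 2 := by
  have h1 := card_q q hq hqc
  have h2 := card_q2 q hq.pos
  have h3 := card_sq q hq hqc
  have h4 : ((range (q ^ 2)).filter (fun n => q ∣ n ^ 2 + n + 1 ∧
      ¬ q ^ 2 ∣ n ^ 2 + n + 1)).card +
      ((range (q ^ 2)).filter (fun n => q ^ 2 ∣ n ^ 2 + n + 1)).card =
      ((range (q ^ 2)).filter (fun n => q ∣ n ^ 2 + n + 1)).card := by
    rw [← card_union_of_disjoint]
    · congr 1
      ext n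
      simp only [mem_union, mem_filter, mem_range]
      constructor
      · rintro (⟨a, b, -⟩ | ⟨a, b⟩)
        · exact ⟨a, b⟩
        · exact ⟨a, (dvd_pow_self q two_ne_zero).trans b⟩
      · rintro ⟨a, b⟩
        by_cases h : q ^ 2 ∣ n ^ 2 + n + 1
        · exact Or.inr ⟨a, h⟩
        · exact Or.inl ⟨a, b, h⟩
    · rw [Finset.disjoint_left]
      intro n a b
      rw [mem_filter] at a b
      exact a.2.2 b.2
  rw [h2] at h4
  have h5 : (((range (q ^ 2)).filter (fun n => q ∣ n ^ 2 + n + 1 ∧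
      ¬ q ^ 2 ∣ n ^ 2 + n + 1)).card : ℝ) +
      (((range (q ^ 2)).filter (fun n => q ^ 2 ∣ n ^ 2 + n + 1)).card : ℝ) =
      q * (((range q).filter (fun n : ℕ => q ∣ n ^ 2 + n + 1)).card : ℝ) := by
    exact_mod_cast h4
  rw [h1] at h5
  have h6 : (((range (q ^ 2)).filter (fun n => q ^ 2 ∣ n ^ 2 + n + 1)).card : ℝ) ≤ 2 := by
    exact_mod_cast h3
  have h7 : (0 : ℝ) ≤ (((range (q ^ 2)).filter (fun n => q ^ 2 ∣ n ^ 2 + n + 1)).card : ℝ) :=
    Nat.cast_nonneg _
  rw [abs_le]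
  constructor <;> linarith

theorem dp : S_DP where
  c0_pos := by norm_num [datP]
  two := by norm_num [datP]
  m_odd := by
    change Odd 3
    decide
  e01 := Or.inr rfl
  neg := by norm_num [datP]
  κ1 := by norm_num [datP]
  τ1 := by norm_num [datP]
  β01 := Or.inr rfl
  rho_low := by
    intro q _ _
    change 1 + 1 * ch (-3) q ≤ 1 + ch (-3) q
    rw [one_mul]
  rho_up := by
    intro q
    change 0 ≤ 1 + ch (-3) q ∧ 1 + ch (-3) q ≤ 2
    rcases Pool.Agent.H951R4.OD.ch_val (-3) q with h | h | h <;> rw [h] <;> norm_num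
  per := by
    intro q n _
    change (q ∣ (n + q ^ 2) ^ 2 + (n + q ^ 2) + 1 ∧ ¬ q ^ 2 ∣ (n + q ^ 2) ^ 2 + (n + q ^ 2) + 1) ↔
      (q ∣ n ^ 2 + n + 1 ∧ ¬ q ^ 2 ∣ n ^ 2 + n + 1)
    have h1 := dvd_add_mul q n q
    rw [← sq] at h1
    have h2 := dvd_add_mul (q ^ 2) n 1
    rw [mul_one] at h2
    rw [h1, h2]
  ord := by
    intro q n _ _ hT
    change (n : ZMod q) ^ 3 = 1
    have h1 : ((n ^ 2 + n + 1 : ℕ) : ZMod q) = 0 := (ZMod.natCast_eq_zero_iff _ _).mpr hT.1
    push_cast at h1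
    have h2 : (n : ZMod q) ^ 3 - 1 = 0 := by
      have e : (n : ZMod q) ^ 3 - 1 = ((n : ZMod q) - 1) * ((n : ZMod q) ^ 2 + n + 1) := by ring
      rw [e, h1, mul_zero]
    exact sub_eq_zero.mp h2
  cnt := by
    intro q hq hqc
    exact cnt_aux q hq hqc _
  mert := by
    obtain ⟨C1, hC1, h1⟩ := Pool.Agent.H951R4.OD.mert_int
    obtain ⟨C2, hC2, h2⟩ := Pool.Agent.H951R4.OD.char_sum_fixed (-3) (by
      rintro ⟨r, hr⟩
      nlinarith [mul_self_nonneg r])
    refine ⟨C1 + C2, fun y z hy hyz => ?_⟩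
    change |∑ q ∈ PI y z, (1 + ch (-3) q) / q - 1 * Real.log (Real.log z / Real.log y)| ≤ C1 + C2
    have e : ∑ q ∈ PI y z, (1 + ch (-3) q) / q - 1 * Real.log (Real.log z / Real.log y) =
        (∑ q ∈ PI y z, (1 : ℝ) / q - Real.log (Real.log z / Real.log y)) +
          ∑ q ∈ PI y z, ch (-3) q / q := by
      simp only [add_div, sum_add_distrib]
      ring
    rw [e]
    exact (abs_add_le _ _).trans (add_le_add (h1 y z hy hyz) (h2 y z))

end Pool.Agent.W613.PQDp
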