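import Pool.Agent.W279.TriS.Defs
import Pool.Agent.W279.TriR.Fill
import Pool.Agent.W279.TriR.Two

set_option autoImplicit false

/-! # SA-REAL: orbits fill real segments along residue classes -/

namespace Pool.Agent.W613.SAReal

open Pool.Agent.W279.Tri Pool.Agent.W279 Filter Topology

theorem near_iff (ξ ξ' η η' : Fin 2 → ℝ) (u v : ℕ → Fin 2 → ℝ) (n : ℕ) (t s : ℝ) :
    TriS.Near ξ ξ' η η' u v n t s ↔ TriR.Near ξ ξ' η η' u v n t s := Iff.rfl

/-- the chart -/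
theorem chart (g₀ : Fin 3 → Fin 3 → ℝ) (ξ ξ' η η' : Fin 2 → ℝ) (h0 : G g₀ ξ η = 0)
    (h1 : Pv g₀ ξ η η' ≠ 0) (δ₁ : ℝ) (hδ₁ : 0 < δ₁) :
    ∃ δC δ' ε₁ : ℝ, 0 < δC ∧ δC ≤ 1 ∧ 0 < δ' ∧ δ' ≤ 1 ∧ δ' ≤ δ₁ ∧ 0 < ε₁ ∧
      ∀ g : Fin 3 → Fin 3 → ℝ, ‖g - g₀‖ ≤ ε₁ → ∀ y z : ℝ, |y| ≤ δC → |z| ≤ δ' →
        TriR.ff (TriR.fm g ξ ξ' η η') y z = 0 →
        |z| ≤ δ' / 2 ∧ TriR.hh (TriR.fm g ξ ξ' η η') y z z ≠ 0 := by
  set β : ℝ := |Pv g₀ ξ η η'| / 2 with hβ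
  have hβ0 : 0 < β := by
    have := abs_pos.2 h1
    rw [hβ]; linarith
  set H : (Fin 3 → Fin 3 → ℝ) × ℝ × ℝ → ℝ := fun p => TriR.co (TriR.fm p.1 ξ ξ' η η') 1 p.2.1 +
    TriR.co (TriR.fm p.1 ξ ξ' η η') 2 p.2.1 * p.2.2 with hH
  have hHc : Continuous H := by
    rw [hH]
    simp only [TriR.co, TriR.fm, TriR.fr, G, Pv, mon, Fin.sum_univ_three, Pi.add_apply,
      Matrix.cons_val_zero, Matrix.cons_val_one, Matrix.cons_val]
    fun_prop
  have hH0 : β < |H (g₀, 0, 0)| := by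
    have : H (g₀, 0, 0) = Pv g₀ ξ η η' := by
      simp [hH, TriR.co, TriR.fm, TriR.fr]
    rw [this, hβ]
    have := abs_pos.2 h1
    linarith
  obtain ⟨r, hr, hr'⟩ := Metric.eventually_nhds_iff.1
    ((continuousAt_const (y := β)).eventually_lt hHc.abs.continuousAt hH0)
  set C : (Fin 3 → Fin 3 → ℝ) × ℝ → ℝ := fun p => TriR.co (TriR.fm p.1 ξ ξ' η η') 0 p.2 with hC
  have hCc : Continuous C := by
    rw [hC]
    simp only [TriR.co, TriR.fm, TriR.fr, G, Pv, mon, Fin.sum_univ_three, Pi.add_apply,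
      Matrix.cons_val_zero, Matrix.cons_val_one, Matrix.cons_val]
    fun_prop
  obtain ⟨δ', hδ'⟩ : ∃ δ', δ' = min (r / 4) (min 1 δ₁) := ⟨_, rfl⟩
  have hδ'0 : 0 < δ' := by rw [hδ']; positivity
  have hδ'r : δ' ≤ r / 4 := by rw [hδ']; exact min_le_left _ _
  have hδ'1 : δ' ≤ 1 := by rw [hδ']; exact (min_le_right _ _).trans (min_le_left _ _)
  have hδ'δ : δ' ≤ δ₁ := by rw [hδ']; exact (min_le_right _ _).trans (min_le_right _ _)
  have hC0 : |C (g₀, 0)| < β * (δ' / 2) := by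
    have : C (g₀, 0) = 0 := by
      simp [hC, TriR.co, TriR.fm, TriR.fr, h0]
    rw [this, abs_zero]
    positivity
  obtain ⟨s, hs, hs'⟩ := Metric.eventually_nhds_iff.1
    (hCc.abs.continuousAt.eventually_lt (continuousAt_const (y := β * (δ' / 2))) hC0)
  refine ⟨min (min (r / 2) (s / 2)) 1, δ', min (r / 2) (s / 2), by positivity, min_le_right _ _,
    hδ'0, hδ'1, hδ'δ, by positivity, ?_⟩
  intro g hg y z hy hz hf
  have hy1 : |y| ≤ r / 2 := (hy.trans (min_le_left _ _)).trans (min_le_left _ _)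
  have hy2 : |y| ≤ s / 2 := (hy.trans (min_le_left _ _)).trans (min_le_right _ _)
  have hg1 : ‖g - g₀‖ ≤ r / 2 := hg.trans (min_le_left _ _)
  have hg2 : ‖g - g₀‖ ≤ s / 2 := hg.trans (min_le_right _ _)
  have hHz : ∀ z' : ℝ, |z'| ≤ r / 2 → β < |H (g, y, z')| := by
    intro z' hz'
    apply hr'
    rw [Prod.dist_eq, Prod.dist_eq, max_lt_iff, max_lt_iff]
    simp only [dist_eq_norm, sub_zero, Real.norm_eq_abs]
    refine ⟨by linarith, by linarith, by linarith⟩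
  have hCz : |C (g, y)| < β * (δ' / 2) := by
    apply hs'
    rw [Prod.dist_eq, max_lt_iff]
    simp only [dist_eq_norm, sub_zero, Real.norm_eq_abs]
    exact ⟨by linarith, by linarith⟩
  constructor
  · have e : z * H (g, y, z) = -C (g, y) := by
      simp only [hH, hC]
      unfold TriR.ff at hf
      linear_combination hf
    have e2 := congrArg abs e
    rw [abs_mul, abs_neg] at e2
    rw [← e2] at hCz
    have h3 := hHz z (by linarith)
    have h4 : |z| * β ≤ |z| * |H (g, y, z)| := by gcongr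
    have h5 : β * |z| ≤ β * (δ' / 2) := by linarith
    exact le_of_mul_le_mul_left h5 hβ0
  · have e : TriR.hh (TriR.fm g ξ ξ' η η') y z z = H (g, y, z + z) := rfl
    rw [e]
    have h3 := hHz (z + z) (by
      have := abs_add_le z z
      linarith)
    exact abs_pos.1 (hβ0.trans h3)

/-- suborbits -/
theorem sub (hrecur : TriS.StmtRecur) {g : Fin 3 → Fin 3 → ℝ} {u v : ℕ → Fin 2 → ℝ}
    (h : TriS.OL g u v) (hg : Sm g) (n₀ W : ℕ) (hW : W ≠ 0) :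
    TriR.RO g (fun k => u (n₀ + k * W)) (fun k => v (n₀ + k * W)) := by
  have hinv : ∀ n m, m ≠ 0 → Rr g (u (n₀ + n * W)) (v (n₀ + n * W)) (u (n₀ + (n + m) * W))
      (v (n₀ + (n + m) * W)) = Rr g (u 0) (v 0) (u (m * W)) (v (m * W)) := by
    intro n m hm
    have := h.inv (n₀ + n * W) (m * W) (Nat.mul_ne_zero hm hW)
    have e : n₀ + (n + m) * W = n₀ + n * W + m * W := by ring
    rw [e]
    exact this
  refine ⟨fun n => h.hu0 _, fun n => h.hv0 _, fun n => h.G0 _, ?_, ?_, ?_, ?_⟩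
  · intro n m hnm
    apply h.hdu
    intro he
    apply hnm
    exact Nat.eq_of_mul_eq_mul_right (Nat.pos_of_ne_zero hW) (Nat.add_left_cancel he)
  · intro n m hnm
    apply h.hdv
    intro he
    apply hnm
    exact Nat.eq_of_mul_eq_mul_right (Nat.pos_of_ne_zero hW) (Nat.add_left_cancel he)
  · intro n m hm
    have h1 := hinv n m hm
    have h2 := hinv 0 m hm
    rw [zero_add] at h2
    change Rr g (u (n₀ + n * W)) (v (n₀ + n * W)) (u (n₀ + (n + m) * W))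
      (v (n₀ + (n + m) * W)) = Rr g (u (n₀ + 0 * W)) (v (n₀ + 0 * W)) (u (n₀ + m * W))
      (v (n₀ + m * W))
    rw [h1, h2]
  · intro n ε hε M
    obtain ⟨C, hC, hup⟩ := TriR.Rr_upper g
    obtain ⟨ψ, hψ, hB⟩ := hrecur ℝ g u v h hg ((C / ε) ^ 2) (fun i => i * W) (fun i j hij =>
      Nat.mul_lt_mul_of_pos_right hij (Nat.pos_of_ne_zero hW))
    have hlt : ψ 0 < ψ (M + 1) := hψ (Nat.succ_pos M)
    have hge : ψ 0 + (M + 1) ≤ ψ (M + 1) := by
      have : ∀ j, ψ 0 + j ≤ ψ j := by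
        intro j
        induction j with
        | zero => simp
        | succ j ih =>
          have h5 : ψ j < ψ (j + 1) := hψ (Nat.lt_succ_self j)
          omega
      exact this (M + 1)
    obtain ⟨m, hm⟩ := Nat.exists_eq_add_of_le hlt.le
    have hm0 : m ≠ 0 := by omega
    refine ⟨m, by omega, ?_⟩
    have h1 := hB 0 (M + 1) (Nat.succ_pos M)
    have h2 := h.inv (ψ 0 * W) (m * W) (Nat.mul_ne_zero hm0 hW)
    have e : ψ 0 * W + m * W = ψ (M + 1) * W := by rw [hm]; ring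
    rw [e] at h2
    change (C / ε) ^ 2 ≤ ‖Rr g (u (ψ 0 * W)) (v (ψ 0 * W)) (u (ψ (M + 1) * W))
      (v (ψ (M + 1) * W))‖ at h1
    rw [h2, ← hinv n m hm0] at h1
    have hne : n₀ + n * W ≠ n₀ + (n + m) * W := by
      intro he
      have := Nat.eq_of_mul_eq_mul_right (Nat.pos_of_ne_zero hW) (Nat.add_left_cancel he)
      omega
    exact hup _ _ _ _ (h.hu0 _) (h.hv0 _) (h.hu0 _) (h.hv0 _) (h.G0 _) (h.G0 _)
      (h.hdu _ _ hne) (h.hdv _ _ hne) ε hε h1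

theorem main (_hrel : TriS.StmtRel) (hclose : TriS.StmtClose) (hrecur : TriS.StmtRecur) :
    TriS.StmtReal := by
  intro g₀ ξ ξ' η η' hξ hη h0 h1 δ₁ hδ₁
  obtain ⟨δC, δ', ε₁, hδC, hδC1, hδ', hδ'1, hδ'δ, hε₁, hchart⟩ :=
    chart g₀ ξ ξ' η η' h0 h1 δ₁ hδ₁
  obtain ⟨D0, hD0, hcl⟩ := hclose ℝ (‖g₀‖ + ε₁) ξ ξ' η η' hξ hη
  obtain ⟨e0, he0⟩ : ∃ e0, e0 = min δC δ' / 4 := ⟨_, rfl⟩
  have he00 : 0 < e0 := by rw [he0]; positivity
  have he0C : e0 ≤ δC / 4 := by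
    rw [he0]
    have := min_le_left δC δ'
    linarith
  have he0' : e0 ≤ δ' / 4 := by
    rw [he0]
    have := min_le_right δC δ'
    linarith
  refine ⟨e0, ε₁, (D0 / e0) ^ 2, he00, hε₁, fun M => ⟨δC / 4, by linarith, ?_⟩⟩
  intro g hg hSm u v hO n w t s hw hn ht hs hD hM τ hτ ε hε
  rw [Real.norm_eq_abs] at ht hs hτ
  have hgB : ‖g‖ ≤ ‖g₀‖ + ε₁ := by
    calc ‖g‖ = ‖g₀ + (g - g₀)‖ := by rw [add_sub_cancel]
      _ ≤ ‖g₀‖ + ‖g - g₀‖ := norm_add_le _ _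
      _ ≤ _ := by gcongr
  have hroot := hchart g hg
  -- filling for suborbits
  have fill : ∀ (n₀ W : ℕ), W ≠ 0 → ∀ y₀ z₀ : ℝ, TriR.Near ξ ξ' η η' u v n₀ y₀ z₀ → |y₀| < δC →
      |z₀| ≤ δ' → ∀ y : ℝ, |y| ≤ δC → ∀ ε : ℝ, 0 < ε → ∃ (j : ℕ) (y' z' : ℝ),
        TriR.Near ξ ξ' η η' u v (n₀ + j * W) y' z' ∧ |y' - y| ≤ ε ∧ |z'| ≤ δ' := by
    intro n₀ W hW y₀ z₀ hy₀ hy1 hz1 y hy ε hε
    have hRO := sub hrecur hO hSm n₀ W hW
    have hst : TriR.Near ξ ξ' η η' (fun k => u (n₀ + k * W)) (fun k => v (n₀ + k * W)) 0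
        y₀ z₀ := by
      have := hy₀
      unfold TriR.Near at this ⊢
      simpa using this
    obtain ⟨j, y', z', h1, h2, h3⟩ := hRO.fill hξ hη hδ' hroot hst hy1 hz1 hy hε
    exact ⟨j, y', z', h1, h2, h3⟩
  -- one step
  have step : ∀ (k : ℕ) (t s : ℝ), TriR.Near ξ ξ' η η' u v k t s → |t| ≤ 1 → |s| ≤ 1 →
      ∃ t' s' : ℝ, TriR.Near ξ ξ' η η' u v (k + w) t' s' ∧ |t' - t| ≤ e0 ∧ |s' - s| ≤ e0 := by
    intro k t s hk ht hs
    have hinv := hO.inv k w hw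
    obtain ⟨t', s', h1, h2, h3, h4⟩ := hcl g hgB (u k) (v k) (u (k + w)) (v (k + w)) (hO.hu0 _)
      (hO.hv0 _) (hO.hu0 _) (hO.hv0 _) (hO.G0 _) (hO.G0 _) (hO.hdu _ _ (by omega))
      (hO.hdv _ _ (by omega)) t s hk.1 hk.2 ht hs e0 he00 (by linarith) (by rw [hinv]; exact hD)
    exact ⟨t', s', ⟨h1, h2⟩, h3, h4⟩
  unfold TriS.Big
  rw [if_pos rfl]
  intro N c hN
  have hNw : N * w ≠ 0 := Nat.mul_ne_zero hN hw
  have ind : ∀ c : ℕ, ∃ (k : ℕ) (t s : ℝ), k ≡ c [MOD N] ∧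
      TriR.Near ξ ξ' η η' u v (n + k * w) t s ∧ |t| ≤ δC / 2 ∧ |s| ≤ δ' := by
    intro c
    induction c with
    | zero =>
      refine ⟨0, t, s, rfl, ?_, by linarith, by linarith⟩
      rw [zero_mul, add_zero]
      exact hn
    | succ c ih =>
      obtain ⟨k, t1, s1, hk, hn1, ht1, hs1⟩ := ih
      have hff : TriR.ff (TriR.fm g ξ ξ' η η') t1 s1 = 0 :=
        TriR.ff_of_At hn1.1 hn1.2 (hO.G0 _)
      have hs2 := (hroot t1 s1 (by linarith) hs1 hff).1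
      obtain ⟨t2, s2, hn2, ht2, hs3⟩ := step (n + k * w) t1 s1 hn1 (by linarith) (by linarith)
      have ht3 : |t2| < δC := by
        have := abs_add_le (t2 - t1) t1
        rw [sub_add_cancel] at this
        linarith
      have hs4 : |s2| ≤ δ' := by
        have := abs_add_le (s2 - s1) s1
        rw [sub_add_cancel] at this
        linarith
      obtain ⟨j, t3, s3, hn3, ht4, hs5⟩ := fill (n + k * w + w) (N * w) hNw t2 s2 hn2 ht3 hs4
        0 (by rw [abs_zero]; exact hδC.le) (δC / 2) (by linarith)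
      refine ⟨k + 1 + j * N, t3, s3, ?_, ?_, ?_, hs5⟩
      · have h5 : k + 1 ≡ c + 1 [MOD N] := hk.add_right 1
        have h6 : j * N ≡ 0 [MOD N] := (Nat.modEq_zero_iff_dvd).mpr (dvd_mul_left _ _)
        exact h5.add h6
      · have e : n + (k + 1 + j * N) * w = n + k * w + w + j * (N * w) := by ring
        rw [e]
        exact hn3
      · rwa [sub_zero] at ht4
  obtain ⟨k, t1, s1, hk, hn1, ht1, hs1⟩ := ind c
  have hτ1 : |τ| ≤ δC := by
    have := abs_add_le (τ - t) t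
    rw [sub_add_cancel] at this
    linarith
  obtain ⟨j, t3, s3, hn3, ht4, hs5⟩ := fill (n + k * w) (N * w) hNw t1 s1 hn1 (by linarith) hs1
    τ hτ1 ε hε
  refine ⟨k + j * N, ⟨t3, s3, ?_, ?_, ?_⟩, ?_⟩
  · have e : n + (k + j * N) * w = n + k * w + j * (N * w) := by ring
    rw [e]
    exact hn3
  · exact ht4
  · exact hs5.trans hδ'δ
  · have h6 : j * N ≡ 0 [MOD N] := (Nat.modEq_zero_iff_dvd).mpr (dvd_mul_left _ _)
    exact hk.add h6

end Pool.Agent.W613.SAReal
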