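import Pool.Agent.W792.LL.Stm

/-! # LL-SHIFT: shift of the origin -/

set_option autoImplicit false

namespace Pool.Agent.W613.LLShift

open MeasureTheory Pool.Agent.W792.LL

theorem mp (d : ℕ) (x : Fin d → ℤ) :
    MeasurePreserving (fun (v : (Fin d → ℤ) → ℝ) (y : Fin d → ℤ) => v (y + x))
      (Pm (Fin d → ℤ)) (Pm (Fin d → ℤ)) := by
  classical
  have hm : Measurable (fun (v : (Fin d → ℤ) → ℝ) (y : Fin d → ℤ) => v (y + x)) :=
    measurable_pi_lambda _ fun y => measurable_pi_apply _
  refine ⟨hm, ?_⟩
  unfold Pm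
  apply Measure.eq_infinitePi
  intro s t ht
  rw [Measure.map_apply hm (MeasurableSet.pi s.countable_toSet fun i _ => ht i)]
  have e : (fun (v : (Fin d → ℤ) → ℝ) (y : Fin d → ℤ) => v (y + x)) ⁻¹' (Set.pi s t) =
      Set.pi (s.map (Equiv.addRight x).toEmbedding : Finset (Fin d → ℤ)) (fun y => t (y - x)) := by
    ext v
    simp only [Set.mem_preimage, Set.mem_pi, Finset.mem_coe, Finset.mem_map,
      Equiv.coe_toEmbedding, Equiv.coe_addRight]
    constructor
    · rintro h _ ⟨y, hy, rfl⟩
      rw [add_sub_cancel_right]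
      exact h y hy
    · intro h y hy
      have := h (y + x) ⟨y, hy, rfl⟩
      rwa [add_sub_cancel_right] at this
  rw [e, Measure.infinitePi_pi]
  · rw [Finset.prod_map]
    refine Finset.prod_congr rfl (fun y _ => ?_)
    have h0 : y + x - x = y := add_sub_cancel_right y x
    change ProbabilityTheory.cauchyMeasure 0 1 (t (y + x - x)) = _
    rw [h0]
  · intro y hy
    rw [Finset.mem_map] at hy
    obtain ⟨y', hy', rfl⟩ := hy
    exact ht _

theorem main : S_SHIFT := by
  intro d K lam Q hQ
  refine ⟨?_, ?_⟩
  · rw [ae_all_iff]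
    intro x
    exact (mp d x).quasiMeasurePreserving.ae hQ
  · intro v z x w
    unfold Sol
    have h1 : Summable (fun y => ‖w y‖ ^ 2) ↔ Summable (fun y => ‖w (y + x)‖ ^ 2) :=
      ((Equiv.addRight x).summable_iff (f := fun y => ‖w y‖ ^ 2)).symm
    have h2 : ∀ y, ∑' y', K (y + x - y') * w y' = ∑' y', K (y - y') * w (y' + x) := by
      intro y
      rw [← (Equiv.addRight x).tsum_eq (fun y' => K (y + x - y') * w y')]
      refine tsum_congr (fun y' => ?_)
      rw [Equiv.coe_addRight, add_sub_add_right_eq_sub]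
    rw [h1]
    refine and_congr_right fun _ => ?_
    constructor
    · intro h y
      have := h (y + x)
      rw [h2] at this
      rw [this]
      simp only [add_eq_right]
    · intro h y
      have h3 := h (y - x)
      have h4 := h2 (y - x)
      rw [sub_add_cancel] at h4
      rw [← h4] at h3
      simp only [sub_add_cancel] at h3
      rw [h3]
      simp only [sub_eq_zero]

end Pool.Agent.W613.LLShift
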