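import Pool.Agent.W276.GE.Basic

set_option autoImplicit false

/-! # GE-PACK: the packing bound -/

open Height NumberField Pool.Agent.W276.GE

namespace Pool.Agent.W613.GEPack

/-- The binary exponent `k e_i + (d-k) e_j`. -/
def bx {n d : ℕ} (i j : Fin n) (k : Fin (d + 1)) : E n d :=
  ⟨Pi.single i k.val + Pi.single j (d - k.val), by
    rw [mem_E]
    simp only [Pi.add_apply, Finset.sum_add_distrib, Finset.sum_pi_single', Finset.mem_univ,
      if_true]
    have := k.2
    omega⟩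

theorem bx_inj {n d : ℕ} {i j : Fin n} (hij : i ≠ j) :
    Function.Injective (bx i j : Fin (d + 1) → E n d) := by
  intro k l h
  have h1 := congrFun (congrArg Subtype.val h) i
  simp only [bx, Pi.add_apply, Pi.single_eq_same, Pi.single_eq_of_ne hij, add_zero] at h1
  exact Fin.ext h1

theorem prod_single {R : Type} [CommRing R] {n : ℕ} (x : Fin n → R) (i : Fin n) (k : ℕ) :
    ∏ l, x l ^ (Pi.single i k : Fin n → ℕ) l = x i ^ k := by
  rw [Finset.prod_eq_single i]
  · rw [Pi.single_eq_same]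
  · intro l _ hl
    rw [Pi.single_eq_of_ne hl, pow_zero]
  · intro h
    exact absurd (Finset.mem_univ i) h

theorem prod_bx {R : Type} [CommRing R] {n d : ℕ} (x : Fin n → R) (i j : Fin n)
    (k : Fin (d + 1)) : ∏ l, x l ^ (bx i j k).1 l = x i ^ k.val * x j ^ (d - k.val) := by
  simp only [bx, Pi.add_apply, pow_add, Finset.prod_mul_distrib, prod_single]

theorem ev_supp {R : Type} [CommRing R] {n d : ℕ} (x : Fin n → R) {i j : Fin n} (hij : i ≠ j)
    (h : E n d → ℤ) (hh : ∀ α, (∀ k : Fin (d + 1), α ≠ bx i j k) → h α = 0) :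
    ev h x = ∑ k : Fin (d + 1), (h (bx i j k) : R) * (x i ^ k.val * x j ^ (d - k.val)) := by
  classical
  unfold ev
  have h1 : ∑ α : E n d, (h α : R) * ∏ l, x l ^ α.1 l =
      ∑ α ∈ Finset.univ.image (bx i j : Fin (d + 1) → E n d), (h α : R) * ∏ l, x l ^ α.1 l := by
    symm
    apply Finset.sum_subset (Finset.subset_univ _)
    intro α _ hα
    rw [hh α, Int.cast_zero, zero_mul]
    intro k hk
    apply hα
    rw [Finset.mem_image]
    exact ⟨k, Finset.mem_univ _, hk.symm⟩
  rw [h1, Finset.sum_image (fun a _ b _ hab => bx_inj hij hab)]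
  refine Finset.sum_congr rfl fun k _ => ?_
  rw [prod_bx]

theorem exists_top (d : ℕ) (z : ℂ) : ∃ m : Fin (d + 1), 0 < ‖z‖ ^ (m : ℕ) ∧
    ∀ k : Fin (d + 1), ‖z‖ ^ (k : ℕ) ≤ ‖z‖ ^ (m : ℕ) := by
  rcases le_or_gt ‖z‖ 1 with h | h
  · refine ⟨0, by simp, fun k => ?_⟩
    simpa using pow_le_one₀ (norm_nonneg z) h
  · refine ⟨Fin.last d, by positivity, fun k => ?_⟩
    exact pow_le_pow_right₀ h.le (by simpa using Nat.lt_succ_iff.mp k.2)

theorem top_bound {d : ℕ} {z : ℂ} {h : Fin (d + 1) → ℤ} {B : ℝ} {m : Fin (d + 1)}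
    (hm0 : 0 < ‖z‖ ^ (m : ℕ)) (hm : ∀ k : Fin (d + 1), ‖z‖ ^ (k : ℕ) ≤ ‖z‖ ^ (m : ℕ))
    (hz : ∑ k : Fin (d + 1), (h k : ℂ) * z ^ (k : ℕ) = 0) (hb : ∀ k, k ≠ m → |(h k : ℝ)| ≤ B) :
    |(h m : ℝ)| ≤ d * B := by
  have h1 : (h m : ℂ) * z ^ (m : ℕ) = -∑ k ∈ Finset.univ.erase m, (h k : ℂ) * z ^ (k : ℕ) := by
    rw [← Finset.add_sum_erase _ _ (Finset.mem_univ m)] at hz
    exact eq_neg_of_add_eq_zero_left hz
  have hn : ∀ k, ‖(h k : ℂ) * z ^ (k : ℕ)‖ = |(h k : ℝ)| * ‖z‖ ^ (k : ℕ) := by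
    intro k
    rw [norm_mul, norm_pow, Complex.norm_intCast]
  have h2 : |(h m : ℝ)| * ‖z‖ ^ (m : ℕ) ≤ (d * B) * ‖z‖ ^ (m : ℕ) := by
    rw [← hn, h1, norm_neg]
    calc ‖∑ k ∈ Finset.univ.erase m, (h k : ℂ) * z ^ (k : ℕ)‖
        ≤ ∑ k ∈ Finset.univ.erase m, ‖(h k : ℂ) * z ^ (k : ℕ)‖ := norm_sum_le _ _
      _ ≤ ∑ _k ∈ Finset.univ.erase m, B * ‖z‖ ^ (m : ℕ) := by
          apply Finset.sum_le_sum
          intro k hk
          rw [hn]
          have h3 := hb k (Finset.ne_of_mem_erase hk)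
          exact mul_le_mul h3 (hm k) (by positivity) ((abs_nonneg _).trans h3)
      _ = (d * B) * ‖z‖ ^ (m : ℕ) := by
          rw [Finset.sum_const, Finset.card_erase_of_mem (Finset.mem_univ m), Finset.card_univ,
            Fintype.card_fin, nsmul_eq_mul]
          simp
          ring
  exact le_of_mul_le_mul_right h2 hm0

/-- number of cells -/
theorem cell_card (T w : ℕ) (hw : 1 ≤ w) (hwT : w ≤ T) :
    ((Finset.Icc (-(T : ℤ) / w) ((T : ℤ) / w)).card : ℝ) ≤ 4 * T / w := by
  have hw0 : (0 : ℝ) < w := by exact_mod_cast hw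
  have hw0' : (0 : ℤ) < w := by exact_mod_cast hw
  rw [Int.card_Icc]
  have h1 : ((T : ℤ) / w : ℤ) * (w : ℤ) ≤ T := Int.ediv_mul_le _ hw0'.ne'
  have h2 : -(T : ℤ) < ((-(T : ℤ)) / w + 1) * w := Int.lt_ediv_add_one_mul_self _ hw0'
  have h3 : (0 : ℤ) ≤ (T : ℤ) / w + 1 - -(T : ℤ) / w := by
    have h4 : -(T : ℤ) / w ≤ (T : ℤ) / w := Int.ediv_le_ediv hw0' (by omega)
    omega
  have h5 : (((T : ℤ) / w + 1 - -(T : ℤ) / w).toNat : ℝ) =
      (((T : ℤ) / w + 1 - -(T : ℤ) / w : ℤ) : ℝ) := by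
    rw [← Int.cast_natCast, Int.toNat_of_nonneg h3]
  rw [h5]
  have h6 : ((((T : ℤ) / w : ℤ) : ℝ)) * w ≤ T := by exact_mod_cast h1
  have h7 : -(T : ℝ) < (((-(T : ℤ) / w : ℤ) : ℝ) + 1) * w := by exact_mod_cast h2
  rw [le_div_iff₀ hw0]
  push_cast
  have h8 : (w : ℝ) ≤ T := by exact_mod_cast hwT
  nlinarith

/-- the final computation -/
theorem final (c H r w : ℝ) (M d : ℕ) (hc : c ≤ (5 * H) ^ (M - (d + 1)) * (8 * H / w) ^ d)
    (hH : 0 < H) (hr : 0 < r) (hw : 0 < w) (hrw : r / w ≤ 2 * d) (hMd : d + 1 ≤ M) :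
    c * r ^ d ≤ 5 ^ (M - (d + 1)) * (8 * (2 * d)) ^ d * H ^ (M - 1) := by
  have hpow : M - 1 = (M - (d + 1)) + d := by omega
  have h1 : (r / w) ^ d ≤ (2 * (d : ℝ)) ^ d := pow_le_pow_left₀ (by positivity) hrw d
  have h2 : (0 : ℝ) ≤ 5 ^ (M - (d + 1)) * 8 ^ d * (H ^ (M - (d + 1)) * H ^ d) := by positivity
  calc c * r ^ d
      ≤ (5 * H) ^ (M - (d + 1)) * (8 * H / w) ^ d * r ^ d :=
        mul_le_mul_of_nonneg_right hc (by positivity)
    _ = 5 ^ (M - (d + 1)) * 8 ^ d * (H ^ (M - (d + 1)) * H ^ d) * (r / w) ^ d := by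
        rw [mul_pow, div_pow, div_pow, mul_pow]
        ring
    _ ≤ 5 ^ (M - (d + 1)) * 8 ^ d * (H ^ (M - (d + 1)) * H ^ d) * (2 * d) ^ d :=
        mul_le_mul_of_nonneg_left h1 h2
    _ = 5 ^ (M - (d + 1)) * (8 * (2 * d)) ^ d * H ^ (M - 1) := by
        rw [hpow, pow_add, mul_pow 8]
        ring

theorem pack (hroot : S_root) (hprod : S_prod) : S_pack := by
  classical
  intro N D d hN hD hd
  obtain ⟨M, hM⟩ : ∃ M, M = Fintype.card (E (N + 1) d) := ⟨_, rfl⟩
  have hNR : (1 : ℝ) ≤ N := by exact_mod_cast hN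
  have hDR : (1 : ℝ) ≤ D := by exact_mod_cast hD
  have hdR : (1 : ℝ) ≤ d := by exact_mod_cast hd
  have hN0 : (0 : ℝ) < N := by linarith
  have hD0 : (0 : ℝ) < D := by linarith
  have hd0 : (0 : ℝ) < d := by linarith
  refine ⟨5 ^ (M - (d + 1)) * (8 * (2 * d)) ^ d, by positivity, ?_⟩
  intro K _ _ hKD P hP H hH hX
  have hHR : (1 : ℝ) ≤ H := by exact_mod_cast hH
  obtain ⟨X, hXd⟩ : ∃ X, X = mulHeight P := ⟨_, rfl⟩
  rw [← hXd] at hX ⊢
  have hX1 : 1 ≤ X := by rw [hXd]; exact one_le_mulHeight P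
  have hX0 : 0 < X := by linarith
  -- the root
  obtain ⟨r, hr⟩ : ∃ r : ℝ, r = X ^ (1 / (2 * (D : ℝ) * N)) := ⟨_, rfl⟩
  have hr1 : 1 ≤ r := by
    rw [hr]
    exact Real.one_le_rpow hX1 (by positivity)
  have hr0 : 0 < r := by linarith
  have hrH : r ≤ H := by
    rw [hr]
    calc X ^ (1 / (2 * (D : ℝ) * N)) ≤ ((H : ℝ) ^ (2 * D * N)) ^ (1 / (2 * (D : ℝ) * N)) := by
          apply Real.rpow_le_rpow hX0.le hX (by positivity)
      _ = H := by
          rw [← Real.rpow_natCast, ← Real.rpow_mul (by positivity)]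
          push_cast
          rw [mul_one_div, div_self (by positivity), Real.rpow_one]
  have hrN : r ^ (2 * D) = X ^ (1 / (N : ℝ)) := by
    rw [hr, ← Real.rpow_natCast, ← Real.rpow_mul hX0.le]
    congr 1
    push_cast
    field_simp
  have hrd : X ^ ((d : ℝ) / (2 * D * N)) = r ^ d := by
    rw [hr, ← Real.rpow_natCast, ← Real.rpow_mul hX0.le]
    congr 1
    ring
  -- the coordinates
  obtain ⟨j, hj⟩ : ∃ j, P j ≠ 0 := by
    by_contra hcon
    push Not at hcon
    exact hP (funext hcon)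
  obtain ⟨i, hij, hi⟩ : ∃ i, i ≠ j ∧ r ^ (2 * D) ≤ mulHeight₁ (P i / P j) := by
    by_contra hcon
    push Not at hcon
    have h1 := hprod K (N + 1) P j hj
    rw [← hXd] at h1
    have hcard : (Finset.univ.erase j).card = N := by
      rw [Finset.card_erase_of_mem (Finset.mem_univ j), Finset.card_univ, Fintype.card_fin]
      rfl
    have h2 : ∏ i ∈ Finset.univ.erase j, mulHeight₁ (P i / P j) <
        ∏ _i ∈ Finset.univ.erase j, r ^ (2 * D) := by
      apply Finset.prod_lt_prod_of_nonempty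
      · intro i _
        exact mulHeight₁_pos _
      · intro i hi
        exact hcon i (Finset.ne_of_mem_erase hi)
      · rw [← Finset.card_pos, hcard]
        omega
    rw [Finset.prod_const, hcard, hrN, ← Real.rpow_natCast, ← Real.rpow_mul hX0.le,
      one_div_mul_cancel hN0.ne', Real.rpow_one] at h2
    linarith
  obtain ⟨x, hx⟩ : ∃ x, x = P i / P j := ⟨_, rfl⟩
  rw [← hx] at hi
  -- the width
  obtain ⟨w, hw⟩ : ∃ w : ℕ, w = ⌈r / (2 * d)⌉₊ := ⟨_, rfl⟩
  have hw1 : 1 ≤ w := by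
    rw [hw, Nat.one_le_ceil_iff]
    positivity
  have hwr : r / (2 * d) ≤ w := by rw [hw]; exact Nat.le_ceil _
  have hwlt : (w : ℝ) - 1 < r / (2 * d) := by
    have := Nat.ceil_lt_add_one (show 0 ≤ r / (2 * d) by positivity)
    rw [← hw] at this
    linarith
  have hw2H : w ≤ 2 * H := by
    have h1 : r / (2 * d) ≤ H := by
      rw [div_le_iff₀ (by positivity)]
      nlinarith
    have h2 : (w : ℝ) < H + 1 := by linarith
    have h3 : w < H + 1 := by exact_mod_cast h2
    omega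
  have hw0 : (0 : ℝ) < w := by exact_mod_cast hw1
  -- claim 1
  have claim1 : ∀ h : Fin (d + 1) → ℤ, (∀ k, |(h k : ℝ)| ≤ d * ((w : ℝ) - 1)) →
      ∑ k, (h k : K) * x ^ (k : ℕ) = 0 → h = 0 := by
    intro h hb hz
    by_contra hne
    obtain ⟨Z, hZ⟩ : ∃ Z : ℕ, Z = d * (w - 1) := ⟨_, rfl⟩
    have hZR : (Z : ℝ) = d * ((w : ℝ) - 1) := by
      rw [hZ]
      push_cast [Nat.cast_sub hw1]
      ring
    have hbZ : ∀ k, |h k| ≤ Z := by
      intro k
      have := hb k
      rw [← hZR] at this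
      exact_mod_cast this
    have hZ1 : 1 ≤ Z := by
      by_contra hZ0
      have hZ0' : Z = 0 := by omega
      apply hne
      funext k
      have := hbZ k
      rw [hZ0', Nat.cast_zero] at this
      exact abs_eq_zero.mp (le_antisymm this (abs_nonneg _))
    have h1 := hroot K d Z h x hZ1 hne hbZ hz
    have hZR1 : (1 : ℝ) ≤ Z := by exact_mod_cast hZ1
    have h2 : (2 * (Z : ℝ) ^ 2) ^ (Module.finrank ℚ K) ≤ (2 * (Z : ℝ) ^ 2) ^ D := by
      apply pow_le_pow_right₀ _ hKD
      nlinarith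
    have h3 : 2 * (Z : ℝ) ^ 2 < r ^ 2 := by
      have h4 : (Z : ℝ) < r / 2 := by
        rw [hZR]
        calc (d : ℝ) * ((w : ℝ) - 1) < d * (r / (2 * d)) := by gcongr
          _ = r / 2 := by field_simp
      nlinarith
    have h5 : (2 * (Z : ℝ) ^ 2) ^ D < (r ^ 2) ^ D :=
      pow_lt_pow_left₀ h3 (by positivity) (by omega)
    rw [← pow_mul] at h5
    linarith
  -- the embedding
  obtain ⟨φ⟩ : Nonempty (K →+* ℂ) := inferInstance
  obtain ⟨m, hm0, hm⟩ := exists_top d (φ x)
  -- the code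
  let B : Finset (E (N + 1) d) := Finset.univ.image (bx i j)
  have hB : ∀ α, α ∉ B ↔ ∀ k : Fin (d + 1), α ≠ bx i j k := by
    intro α
    simp only [B, Finset.mem_image, Finset.mem_univ, true_and, not_exists]
    exact forall_congr' fun k => not_congr eq_comm
  have hBcard : B.card = d + 1 := by
    rw [Finset.card_image_of_injective _ (bx_inj hij), Finset.card_univ, Fintype.card_fin]
  let T : ℕ := 2 * H
  let S : E (N + 1) d → Finset ℤ := fun α => if α ∈ B then
    (if α = bx i j m then {0} else Finset.Icc (-(T : ℤ) / w) ((T : ℤ) / w))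
    else Finset.Icc (-(T : ℤ)) T
  let code : (E (N + 1) d → ℤ) → (E (N + 1) d → ℤ) := fun G α => if α ∈ B then
    (if α = bx i j m then 0 else G α / w) else G α
  have hSout : ∀ α, α ∉ B → S α = Finset.Icc (-(T : ℤ)) T := fun α hα => if_neg hα
  have hSm : S (bx i j m) = {0} := by
    have hin : bx i j m ∈ B := Finset.mem_image_of_mem _ (Finset.mem_univ m)
    change (if bx i j m ∈ B then (if bx i j m = bx i j m then ({0} : Finset ℤ) else
      Finset.Icc (-(T : ℤ) / w) ((T : ℤ) / w)) else Finset.Icc (-(T : ℤ)) T) = {0}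
    rw [if_pos hin, if_pos rfl]
  have hSk : ∀ k, k ≠ m → S (bx i j k) = Finset.Icc (-(T : ℤ) / w) ((T : ℤ) / w) := by
    intro k hk
    have hin : bx i j k ∈ B := Finset.mem_image_of_mem _ (Finset.mem_univ k)
    change (if bx i j k ∈ B then (if bx i j k = bx i j m then ({0} : Finset ℤ) else
      Finset.Icc (-(T : ℤ) / w) ((T : ℤ) / w)) else Finset.Icc (-(T : ℤ)) T) = _
    rw [if_pos hin, if_neg (fun hcon => hk (bx_inj hij hcon))]
  have hcout : ∀ G α, α ∉ B → code G α = G α := fun G α hα => if_neg hα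
  have hck : ∀ G k, k ≠ m → code G (bx i j k) = G (bx i j k) / w := by
    intro G k hk
    have hin : bx i j k ∈ B := Finset.mem_image_of_mem _ (Finset.mem_univ k)
    change (if bx i j k ∈ B then (if bx i j k = bx i j m then 0 else G (bx i j k) / w) else
      G (bx i j k)) = _
    rw [if_pos hin, if_neg (fun hcon => hk (bx_inj hij hcon))]
  have hwZ : (0 : ℤ) < w := by exact_mod_cast hw1
  have hcount : nz d (2 * H) P ≤ (Fintype.piFinset S).card := by
    unfold nz
    rw [← Set.ncard_coe_finset]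
    apply Set.ncard_le_ncard_of_injOn code
    · rintro G ⟨hG, -⟩
      rw [mem_box] at hG
      rw [Finset.mem_coe, Fintype.mem_piFinset]
      intro α
      have hGα := abs_le.mp (hG α)
      simp only [S, code]
      split_ifs with h1 h2
      · exact Finset.mem_singleton.mpr rfl
      · exact Finset.mem_Icc.mpr ⟨Int.ediv_le_ediv hwZ hGα.1, Int.ediv_le_ediv hwZ hGα.2⟩
      · exact Finset.mem_Icc.mpr hGα
    · rintro G ⟨-, hG⟩ G' ⟨-, hG'⟩ hc
      obtain ⟨h, hh⟩ : ∃ h, h = G - G' := ⟨_, rfl⟩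
      have hev : ev h P = 0 := by rw [hh, ev_sub, hG, hG', sub_zero]
      have hout : ∀ α, (∀ k : Fin (d + 1), α ≠ bx i j k) → h α = 0 := by
        intro α hα
        have h1 := congrFun hc α
        rw [hcout _ _ ((hB α).mpr hα), hcout _ _ ((hB α).mpr hα)] at h1
        rw [hh, Pi.sub_apply, h1, sub_self]
      have hsmall : ∀ k, k ≠ m → |(h (bx i j k) : ℝ)| ≤ (w : ℝ) - 1 := by
        intro k hk
        have h1 := congrFun hc (bx i j k)
        rw [hck _ _ hk, hck _ _ hk] at h1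
        have e1 := Int.mul_ediv_add_emod (G (bx i j k)) w
        have e2 := Int.mul_ediv_add_emod (G' (bx i j k)) w
        have e3 := Int.emod_nonneg (G (bx i j k)) hwZ.ne'
        have e4 := Int.emod_lt_of_pos (G (bx i j k)) hwZ
        have e5 := Int.emod_nonneg (G' (bx i j k)) hwZ.ne'
        have e6 := Int.emod_lt_of_pos (G' (bx i j k)) hwZ
        rw [h1] at e1
        have e7 : |h (bx i j k)| ≤ (w : ℤ) - 1 := by
          rw [hh, Pi.sub_apply, abs_le]
          constructor <;> linarith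
        exact_mod_cast e7
      have hpoly : ∑ k : Fin (d + 1), (h (bx i j k) : K) * x ^ (k : ℕ) = 0 := by
        rw [ev_supp P hij h hout] at hev
        have h1 : P j ^ d * ∑ k : Fin (d + 1), (h (bx i j k) : K) * x ^ (k : ℕ) = 0 := by
          rw [Finset.mul_sum, ← hev]
          refine Finset.sum_congr rfl fun k _ => ?_
          have h2 : P j ^ d = P j ^ (k : ℕ) * P j ^ (d - (k : ℕ)) := by
            rw [← pow_add]
            congr 1
            have := k.2
            omega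
          rw [h2, hx, div_pow]
          field_simp
        exact (mul_eq_zero.mp h1).resolve_left (pow_ne_zero _ hj)
      have hpolyC : ∑ k : Fin (d + 1), (h (bx i j k) : ℂ) * (φ x) ^ (k : ℕ) = 0 := by
        have h1 := congrArg φ hpoly
        rw [map_zero, map_sum] at h1
        rw [← h1]
        refine Finset.sum_congr rfl fun k _ => ?_
        rw [map_mul, map_pow, map_intCast]
      have htop := top_bound (h := fun k => h (bx i j k)) hm0 hm hpolyC hsmall
      have hw1' : (0 : ℝ) ≤ (w : ℝ) - 1 := by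
        have : (1 : ℝ) ≤ w := by exact_mod_cast hw1
        linarith
      have hall : ∀ k, |(h (bx i j k) : ℝ)| ≤ d * ((w : ℝ) - 1) := by
        intro k
        by_cases hk : k = m
        · rw [hk]; exact htop
        · refine (hsmall k hk).trans ?_
          nlinarith
      have hzero := claim1 (fun k => h (bx i j k)) hall hpoly
      have hh0 : h = 0 := by
        funext α
        by_cases hα : ∀ k : Fin (d + 1), α ≠ bx i j k
        · exact hout α hα
        · push Not at hα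
          obtain ⟨k, rfl⟩ := hα
          exact congrFun hzero k
      rw [hh0] at hh
      exact (sub_eq_zero.mp hh.symm)
  -- the size of the code set
  have hcell := cell_card T w hw1 hw2H
  have hsize : ((Fintype.piFinset S).card : ℝ) ≤
      (5 * H) ^ (M - (d + 1)) * (8 * H / w) ^ d := by
    rw [Fintype.card_piFinset, Nat.cast_prod, ← Finset.prod_compl_mul_prod B]
    have h1 : ∏ α ∈ Bᶜ, ((S α).card : ℝ) = (2 * T + 1) ^ (M - (d + 1)) := by
      have h2 : ∀ α ∈ Bᶜ, ((S α).card : ℝ) = 2 * T + 1 := by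
        intro α hα
        rw [Finset.mem_compl] at hα
        rw [hSout α hα, Int.card_Icc]
        have : ((T : ℤ) + 1 - -(T : ℤ)).toNat = 2 * T + 1 := by omega
        rw [this]
        push_cast
        ring
      rw [Finset.prod_congr rfl h2, Finset.prod_const, Finset.card_compl, hBcard, ← hM]
    have h3 : ∏ α ∈ B, ((S α).card : ℝ) ≤ (4 * T / w) ^ d := by
      simp only [B]
      rw [Finset.prod_image (fun a _ b _ hab => bx_inj hij hab),
        ← Finset.mul_prod_erase _ _ (Finset.mem_univ m)]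
      have hmS : ((S (bx i j m)).card : ℝ) = 1 := by
        rw [hSm, Finset.card_singleton, Nat.cast_one]
      rw [hmS, one_mul]
      calc ∏ k ∈ Finset.univ.erase m, ((S (bx i j k)).card : ℝ)
          ≤ ∏ _k ∈ Finset.univ.erase m, (4 * T / w : ℝ) := by
            apply Finset.prod_le_prod
            · intro k _
              positivity
            · intro k hk
              rw [hSk k (Finset.ne_of_mem_erase hk)]
              exact hcell
        _ = (4 * T / w : ℝ) ^ d := by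
            rw [Finset.prod_const, Finset.card_erase_of_mem (Finset.mem_univ m),
              Finset.card_univ, Fintype.card_fin]
            rfl
    rw [h1]
    have hT : (T : ℝ) = 2 * H := by
      simp only [T]
      push_cast
      ring
    have e1 : (2 * (T : ℝ) + 1) ^ (M - (d + 1)) ≤ (5 * (H : ℝ)) ^ (M - (d + 1)) := by
      apply pow_le_pow_left₀
      · rw [hT]; linarith
      · rw [hT]; linarith
    have e2 : (8 * (H : ℝ) / w) ^ d = (4 * (T : ℝ) / w) ^ d := by
      rw [hT]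
      congr 2
      ring
    rw [e2]
    exact mul_le_mul e1 h3 (Finset.prod_nonneg fun α _ => Nat.cast_nonneg _)
      (pow_nonneg (by linarith) _)
  -- conclusion
  have hMd : d + 1 ≤ M := by
    rw [← hBcard, hM]
    exact Finset.card_le_univ B
  rw [hrd, ← hM]
  have hcR : (nz d (2 * H) P : ℝ) ≤ (5 * H) ^ (M - (d + 1)) * (8 * H / w) ^ d :=
    le_trans (by exact_mod_cast hcount) hsize
  have hrw : r / w ≤ 2 * d := by
    rw [div_le_iff₀ hw0]
    rw [div_le_iff₀ (by positivity)] at hwr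
    linarith
  exact final _ H r w M d hcR (by linarith) hr0 hw0 hrw hMd

end Pool.Agent.W613.GEPack
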