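import Pool.Agent.W544.K3.Defs

/-! # K3-GRADE -/

set_option autoImplicit false

open Module Finset

namespace Pool.Agent.W613.K3

open Pool.Agent.W544.K3

theorem grade : S_grade := by
  intro U _ _ _ x h p hx hh hp
  classical
  set s : Set U := {v | ∃ μ : ℝ, x v = μ • v} with hs
  have hspan : ⊤ ≤ Submodule.span ℝ s := by
    rw [← hx]
    refine iSup_le fun μ v hv => Submodule.subset_span ⟨μ, End.mem_eigenspace_iff.1 hv⟩
  let b := Basis.ofSpan hspan
  have hb : ∀ i, ∃ μ : ℝ, x (b i) = μ • b i := fun i => Basis.ofSpan_subset hspan ⟨i, rfl⟩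
  choose m hm using hb
  have : Finite ((linearIndepOn_empty ℝ id).extend (Set.empty_subset s)) :=
    Module.Finite.finite_basis b
  have := Fintype.ofFinite ((linearIndepOn_empty ℝ id).extend (Set.empty_subset s))
  set ad : End ℝ (End ℝ U) := LinearMap.mulLeft ℝ x - LinearMap.mulRight ℝ x with had
  have hada : ∀ y, ad y = x * y - y * x := fun y => by simp [had]
  have hcoord : ∀ j v, b.coord j (x v) = m j * b.coord j v := by
    intro j v
    have h1 : (b.coord j).comp x = m j • b.coord j := by
      refine b.ext fun i => ?_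
      rw [LinearMap.comp_apply, hm i, map_smul, LinearMap.smul_apply, smul_eq_mul, smul_eq_mul]
      by_cases hij : i = j
      · rw [hij]
      · rw [Basis.coord_apply, Basis.repr_self, Finsupp.single_apply, if_neg hij]
        simp
    have h2 := congrArg (fun f : U →ₗ[ℝ] ℝ => f v) h1
    simpa using h2
  have hE : ∀ i j, (b.coord j).smulRight (b i) ∈ End.eigenspace ad (m i - m j) := by
    intro i j
    rw [End.mem_eigenspace_iff, hada]
    ext v
    simp only [LinearMap.sub_apply, Module.End.mul_apply, LinearMap.smulRight_apply,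
      LinearMap.smul_apply, map_smul, hm i, hcoord, smul_smul, ← sub_smul]
    congr 1
    ring
  have htop : ⨆ α : ℝ, End.eigenspace ad α = ⊤ := by
    rw [eq_top_iff]
    intro y _
    have hy : y = ∑ j, ∑ i, (b.coord i (y (b j))) • (b.coord j).smulRight (b i) := by
      refine b.ext fun k => ?_
      rw [LinearMap.sum_apply]
      simp only [LinearMap.sum_apply, LinearMap.smul_apply, LinearMap.smulRight_apply,
        Basis.coord_apply, Basis.repr_self]
      rw [Finset.sum_eq_single k]
      · simp only [Finsupp.single_eq_same, one_smul]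
        exact (b.sum_repr (y (b k))).symm
      · intro j _ hj
        refine Finset.sum_eq_zero fun i _ => ?_
        rw [Finsupp.single_apply, if_neg (Ne.symm hj)]
        simp
      · intro h1
        exact absurd (Finset.mem_univ k) h1
    rw [hy]
    refine Submodule.sum_mem _ fun j _ => Submodule.sum_mem _ fun i _ => Submodule.smul_mem _ _ ?_
    exact (le_iSup (fun α : ℝ => End.eigenspace ad α) (m i - m j)) (hE i j)
  have hinv : ∀ y ∈ h, ad y ∈ h := fun y hy => by
    rw [hada]
    exact hh y hy
  have key := Submodule.inf_iSup_genEigenspace (p := h) (f := ad) hinv (k := 1)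
  have htop' : ⨆ α : ℝ, ad.genEigenspace α 1 = ⊤ := htop
  rw [htop', inf_top_eq] at key
  rw [key]
  refine iSup_le fun α y hy => ?_
  obtain ⟨hy1, hy2⟩ := Submodule.mem_inf.1 hy
  refine hp α y hy1 ?_
  have h3 : y ∈ End.eigenspace ad α := hy2
  rw [End.mem_eigenspace_iff, hada] at h3
  exact h3

end Pool.Agent.W613.K3
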