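import Pool.Agent.W921.VP.DefsC

set_option autoImplicit false

/-! # VP-NI: isolation and twins are properties of the first-order type -/

namespace Pool.Agent.W613.VPNI

open FirstOrder Set Pool.Agent.W921.VP
open FirstOrder.Language (Theory BoundedFormula)

/-- First-order properties of tuples. -/
def FOp (L : FirstOrder.Language.{0, 0}) (n : ℕ)
    (P : ∀ (M : Type), L.Structure M → (Fin n → M) → Prop) : Prop :=
  ∃ φ : L.BoundedFormula Empty n, ∀ (M : Type) (S : L.Structure M) (a : Fin n → M),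
    @BoundedFormula.Realize L M S Empty n φ Empty.elim a ↔ P M S a

variable {L : FirstOrder.Language.{0, 0}}

theorem FOp.congr {n : ℕ} {P Q : ∀ (M : Type), L.Structure M → (Fin n → M) → Prop}
    (h : FOp L n P) (hPQ : ∀ M S a, P M S a ↔ Q M S a) : FOp L n Q := by
  obtain ⟨φ, hφ⟩ := h
  exact ⟨φ, fun M S a => (hφ M S a).trans (hPQ M S a)⟩

theorem FOp.top {n : ℕ} : FOp L n (fun _ _ _ => True) :=
  ⟨⊤, fun M S a => by simp⟩

theorem FOp.imp {n : ℕ} {P Q : ∀ (M : Type), L.Structure M → (Fin n → M) → Prop}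
    (h : FOp L n P) (h' : FOp L n Q) : FOp L n (fun M S a => P M S a → Q M S a) := by
  obtain ⟨φ, hφ⟩ := h
  obtain ⟨ψ, hψ⟩ := h'
  refine ⟨φ.imp ψ, fun M S a => ?_⟩
  rw [BoundedFormula.realize_imp, hφ, hψ]

theorem FOp.and {n : ℕ} {P Q : ∀ (M : Type), L.Structure M → (Fin n → M) → Prop}
    (h : FOp L n P) (h' : FOp L n Q) : FOp L n (fun M S a => P M S a ∧ Q M S a) := by
  obtain ⟨φ, hφ⟩ := h
  obtain ⟨ψ, hψ⟩ := h'
  refine ⟨φ ⊓ ψ, fun M S a => ?_⟩
  rw [BoundedFormula.realize_inf, hφ, hψ]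

theorem FOp.all {n : ℕ} {P : ∀ (M : Type), L.Structure M → (Fin (n + 1) → M) → Prop}
    (h : FOp L (n + 1) P) :
    FOp L n (fun M S a => ∀ x : M, P M S (Fin.snoc a x : Fin (n + 1) → M)) := by
  obtain ⟨φ, hφ⟩ := h
  refine ⟨φ.all, fun M S a => ?_⟩
  rw [BoundedFormula.realize_all]
  exact forall_congr' fun x => hφ M S _

theorem FOp.finset {n : ℕ} {ι : Type} (F : Finset ι)
    {P : ι → ∀ (M : Type), L.Structure M → (Fin n → M) → Prop} (h : ∀ i, FOp L n (P i)) :
    FOp L n (fun M S a => ∀ i ∈ F, P i M S a) := by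
  classical
  induction F using Finset.induction_on with
  | empty => exact FOp.top.congr fun M S a => by simp
  | insert i F hi ih =>
    refine ((h i).and ih).congr fun M S a => ?_
    simp

theorem fo_tw (h : S_TWD) [L.IsRelational] {n k : ℕ} (R : L.Relations k) (i j : Fin n) :
    FOp L n (fun _ S a => Tw S R (a i) (a j)) := by
  obtain ⟨φ, hφ⟩ := h L k R
  let g : Empty ⊕ Fin 2 → Empty ⊕ Fin n := Sum.elim Sum.inl fun l => Sum.inr (![i, j] l)
  let ψ : L.BoundedFormula Empty n := BoundedFormula.relabel g (BoundedFormula.toFormula φ)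
  refine ⟨ψ, fun M S a => ?_⟩
  change @BoundedFormula.Realize L M S Empty n ψ Empty.elim a ↔ Tw S R (a i) (a j)
  rw [← hφ M S (a i) (a j)]
  have h1 : @BoundedFormula.Realize L M S Empty n ψ Empty.elim a ↔
      @BoundedFormula.Realize L M S _ _ (BoundedFormula.toFormula φ)
        (Sum.elim Empty.elim (a ∘ Fin.castAdd 0) ∘ g) (a ∘ Fin.natAdd n) :=
    @BoundedFormula.realize_relabel L M S _ _ n 0 (BoundedFormula.toFormula φ) g Empty.elim a
  have h2 := @BoundedFormula.realize_toFormula L M S _ _ φ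
    (Sum.elim Empty.elim (a ∘ Fin.castAdd 0) ∘ g)
  rw [h1]
  have e0 : (a ∘ Fin.natAdd n : Fin 0 → M) = default := Subsingleton.elim _ _
  rw [e0]
  refine Iff.trans h2 ?_
  have e1 : ((Sum.elim Empty.elim (a ∘ Fin.castAdd 0) ∘ g) ∘ Sum.inl : Empty → M) = Empty.elim :=
    Subsingleton.elim _ _
  have e2 : ((Sum.elim Empty.elim (a ∘ Fin.castAdd 0) ∘ g) ∘ Sum.inr : Fin 2 → M) =
      ![a i, a j] := by
    funext l
    fin_cases l
    · rfl
    · rfl
  rw [e1, e2]

theorem FOp.same {n : ℕ} {P : ∀ (M : Type), L.Structure M → (Fin n → M) → Prop}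
    (h : FOp L n P) {M N : Type} {S : L.Structure M} {S' : L.Structure N} {a : Fin n → M}
    {a' : Fin n → N} (hs : SameTp S S' a a') : P M S a ↔ P N S' a' := by
  obtain ⟨φ, hφ⟩ := h
  rw [← hφ, ← hφ]
  exact hs φ

theorem task (h : S_TWD) : S_NI := by
  intro L _ M N S S' n a a' hs
  refine ⟨fun i => ?_, fun i j => ?_⟩
  · -- isolation
    have key : ∀ (F : Finset (Sym L)) (R' : Sym L), FOp L n (fun M S a =>
        ∀ y : M, (∀ R ∈ F, Tw S R.2 (a i) y) → Tw S R'.2 (a i) y) := by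
      intro F R'
      have h1 : FOp L (n + 1) (fun M S b => (∀ R ∈ F, Tw S R.2 (b i.castSucc) (b (Fin.last n))) →
          Tw S R'.2 (b i.castSucc) (b (Fin.last n))) :=
        (FOp.finset F (P := fun R M S b => Tw S R.2 (b i.castSucc) (b (Fin.last n)))
          fun R => fo_tw h R.2 _ _).imp (fo_tw h R'.2 _ _)
      refine h1.all.congr fun M S a => ?_
      simp only [Fin.snoc_castSucc, Fin.snoc_last]
    have hni : ∀ (M : Type) (S : L.Structure M) (x : M), ¬ NonIso S x ↔
        ∃ F : Finset (Sym L), ∀ R' : Sym L, ∀ y : M, (∀ R ∈ F, Tw S R.2 x y) → Tw S R'.2 x y := by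
      intro M S x
      unfold NonIso TwF TwA
      push Not
      constructor
      · rintro ⟨F, hF⟩
        exact ⟨F, fun R' y hy => hF y hy R'⟩
      · rintro ⟨F, hF⟩
        exact ⟨F, fun y hy R' => hF R' y hy⟩
    rw [← not_iff_not, hni, hni]
    exact exists_congr fun F => forall_congr' fun R' => (key F R').same hs
  · unfold TwA
    exact forall_congr' fun R => (fo_tw h R.2 i j).same hs

end Pool.Agent.W613.VPNI
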